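import Mathlib

/-!
# [H34 EW CNT] Counting lemmas

`sum_pat`: few data `(w, N, z)` if they are determined by few parameters; `many_fibers`: many large fibres; `crt_mod`: a residue with
prescribed divisors; `exists_primes`: different large primes.
-/

set_option autoImplicit false

namespace Pool.Agent.H34.EW

open Finset

open Classical in
/-- few data which are determined by few parameters -/
theorem sum_pat {α β γ ι : Type} (I₀ : Finset ι) (Z : Finset ℕ) (Gs : Finset γ) (X : ℕ) (T : ι → Set ℕ) (Bd : ℝ)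
    (hT : ∀ i ∈ I₀, ({t : ℕ | t ≤ X ∧ t ∈ T i}.ncard : ℝ) ≤ Bd) (𝒲 : Finset α) (𝒩 : Finset ℕ) (F : α → ℕ → Finset β)
    (Rel : ι → ℕ → γ → α → β → Prop) (hRel : ∀ i y g w z w' z', Rel i y g w z → Rel i y g w' z' → w = w' ∧ z = z')
    (h : ∀ w ∈ 𝒲, ∀ N ∈ 𝒩, ∀ z ∈ F w N, ∃ i ∈ I₀, ∃ y ∈ Z, ∃ g ∈ Gs, N + y ≤ X ∧ N + y ∈ T i ∧ Rel i y g w z) :
    ∑ w ∈ 𝒲, ∑ N ∈ 𝒩, ((F w N).card : ℝ) ≤ I₀.card * Z.card * Gs.card * Bd := by
  obtain ⟨Src, hSrc⟩ : ∃ Src : Finset (Σ _ : α, Σ _ : ℕ, β), Src = 𝒲.sigma (fun w => 𝒩.sigma (fun N => F w N)) := ⟨_, rfl⟩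
  obtain ⟨Cn, hCn⟩ : ∃ Cn : ι × ℕ × γ → Finset ℕ, Cn = fun p => (range (X + 1)).filter (fun t => t ∈ T p.1) := ⟨_, rfl⟩
  obtain ⟨U, hU⟩ : ∃ U : Finset (ι × ℕ × γ), U = I₀ ×ˢ (Z ×ˢ Gs) := ⟨_, rfl⟩
  have hUc : (U.card : ℝ) = I₀.card * Z.card * Gs.card := by
    rw [hU, card_product, card_product]
    push_cast
    ring
  have hch : ∀ x : Src, ∃ p : ι × ℕ × γ, p ∈ U ∧ x.1.2.1 + p.2.1 ≤ X ∧ x.1.2.1 + p.2.1 ∈ T p.1 ∧
      Rel p.1 p.2.1 p.2.2 x.1.1 x.1.2.2 := by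
    rintro ⟨⟨w, N, z⟩, hx⟩
    rw [hSrc, mem_sigma, mem_sigma] at hx
    obtain ⟨i, hi, y, hy, g, hg, h1, h2, h3⟩ := h w hx.1 N hx.2.1 z hx.2.2
    refine ⟨(i, y, g), ?_, h1, h2, h3⟩
    rw [hU]
    exact mem_product.2 ⟨hi, mem_product.2 ⟨hy, hg⟩⟩
  choose pp hpp1 hpp2 hpp3 hpp4 using hch
  have hkey : Src.card ≤ (U.sigma Cn).card := by
    rw [← card_attach (s := Src)]
    refine card_le_card_of_injOn (fun x => (⟨pp x, x.1.2.1 + (pp x).2.1⟩ : Σ _ : ι × ℕ × γ, ℕ)) ?_ ?_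
    · intro x _
      rw [mem_coe, mem_sigma]
      refine ⟨hpp1 x, ?_⟩
      rw [hCn]
      simp only [mem_filter, mem_range]
      exact ⟨Nat.lt_succ_iff.2 (hpp2 x), hpp3 x⟩
    · intro x _ x' _ hxx
      simp only [Sigma.mk.injEq, heq_eq_eq] at hxx
      obtain ⟨h1, h2⟩ := hxx
      have h3 := hpp4 x
      rw [h1] at h3 h2
      have h4 := hRel _ _ _ _ _ _ _ h3 (hpp4 x')
      have h5 : x.1.2.1 = x'.1.2.1 := by omega
      obtain ⟨⟨w, N, z⟩, hx⟩ := x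
      obtain ⟨⟨w', N', z'⟩, hx'⟩ := x'
      simp only at h4 h5
      obtain ⟨rfl, rfl⟩ := h4
      subst h5
      rfl
  have hs : ∑ w ∈ 𝒲, ∑ N ∈ 𝒩, ((F w N).card : ℝ) = Src.card := by
    rw [hSrc, card_sigma]
    push_cast
    refine sum_congr rfl fun w _ => ?_
    rw [card_sigma]
    push_cast
    rfl
  rw [hs, ← hUc, ← nsmul_eq_mul]
  have h1 : (Src.card : ℝ) ≤ ∑ p ∈ U, ((Cn p).card : ℝ) := by
    rw [card_sigma] at hkey
    exact_mod_cast hkey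
  refine h1.trans (sum_le_card_nsmul U _ Bd fun p hp => ?_)
  rw [hU, mem_product] at hp
  refine le_trans (le_of_eq ?_) (hT p.1 hp.1)
  rw [hCn, ← Set.ncard_coe_finset]
  congr 2
  ext t
  simp only [coe_filter, mem_range, Set.mem_ofPred_eq, Nat.lt_succ_iff]

/-- many large fibres -/
theorem many_fibers {α β : Type} [DecidableEq α] (𝒰 : Finset β) (f : β → α) (𝒲 : Finset α) (hf : ∀ u ∈ 𝒰, f u ∈ 𝒲) (H T C : ℝ)
    (hH : ∀ w ∈ 𝒲, ((𝒰.filter (fun u => f u = w)).card : ℝ) ≤ H) (hC : (𝒲.card : ℝ) ≤ C) (hC0 : 0 < C) (hT0 : 0 ≤ T)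
    (hT : T ≤ 𝒰.card) :
    T / 2 ≤ ((𝒲.filter (fun w => T / (2 * C) ≤ ((𝒰.filter (fun u => f u = w)).card : ℝ))).card : ℝ) * H := by
  have h1 : (𝒰.card : ℝ) = ∑ w ∈ 𝒲, ((𝒰.filter (fun u => f u = w)).card : ℝ) := by
    rw [← Nat.cast_sum, ← card_eq_sum_card_fiberwise (f := f) (s := 𝒰) (t := 𝒲) (fun u hu => mem_coe.2 (hf u hu))]
  rw [h1, ← sum_filter_add_sum_filter_not 𝒲 (fun w => T / (2 * C) ≤ ((𝒰.filter (fun u => f u = w)).card : ℝ))] at hT
  have h2 : ∑ w ∈ 𝒲.filter (fun w => T / (2 * C) ≤ ((𝒰.filter (fun u => f u = w)).card : ℝ)),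
      ((𝒰.filter (fun u => f u = w)).card : ℝ) ≤
      ((𝒲.filter (fun w => T / (2 * C) ≤ ((𝒰.filter (fun u => f u = w)).card : ℝ))).card : ℝ) * H := by
    rw [← nsmul_eq_mul]
    exact sum_le_card_nsmul _ _ _ fun w hw => hH w (mem_filter.1 hw).1
  have h3 : ∑ w ∈ 𝒲.filter (fun w => ¬ T / (2 * C) ≤ ((𝒰.filter (fun u => f u = w)).card : ℝ)),
      ((𝒰.filter (fun u => f u = w)).card : ℝ) ≤ T / 2 := by
    have h4 : ∑ w ∈ 𝒲.filter (fun w => ¬ T / (2 * C) ≤ ((𝒰.filter (fun u => f u = w)).card : ℝ)),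
      ((𝒰.filter (fun u => f u = w)).card : ℝ) ≤
        ((𝒲.filter (fun w => ¬ T / (2 * C) ≤ ((𝒰.filter (fun u => f u = w)).card : ℝ))).card : ℝ) * (T / (2 * C)) := by
      rw [← nsmul_eq_mul]
      exact sum_le_card_nsmul _ _ _ fun w hw => (not_le.1 (mem_filter.1 hw).2).le
    refine h4.trans ?_
    have h5 : ((𝒲.filter (fun w => ¬ T / (2 * C) ≤ ((𝒰.filter (fun u => f u = w)).card : ℝ))).card : ℝ) ≤ C :=
      le_trans (by exact_mod_cast card_filter_le _ _) hC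
    calc ((𝒲.filter (fun w => ¬ T / (2 * C) ≤ ((𝒰.filter (fun u => f u = w)).card : ℝ))).card : ℝ) * (T / (2 * C)) ≤
          C * (T / (2 * C)) := mul_le_mul_of_nonneg_right h5 (by positivity)
      _ = T / 2 := by field_simp
  linarith

/-- a residue with prescribed divisors -/
theorem crt_mod {Λ : Type} [Fintype Λ] (R : ℕ) (hR : 0 < R) (l : Λ → ℕ) (hlp : ∀ i, (l i).Prime) (hinj : Function.Injective l)
    (hlR : ∀ i, R < l i) (pos : Λ → ℤ) :
    ∃ N₁ : ℕ, N₁ < R * ∏ i, l i ∧ R ∣ N₁ ∧ ∀ i, (l i : ℤ) ∣ N₁ + pos i := by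
  classical
  have hcop2 : ∀ g g', g ≠ g' → Nat.Coprime (l g) (l g') := fun g g' h =>
    (Nat.coprime_primes (hlp g) (hlp g')).2 fun h' => h (hinj h')
  have hcopR : ∀ g, Nat.Coprime (l g) R := by
    intro g
    rw [(hlp g).coprime_iff_not_dvd]
    intro h
    have h1 := Nat.le_of_dvd hR h
    have h2 := hlR g
    omega
  obtain ⟨y, hy⟩ := Nat.chineseRemainderOfFinset
    (fun o : Option Λ => o.elim 0 (fun g => ((-(pos g)) % (l g : ℤ)).toNat))
    (fun o : Option Λ => o.elim R l) univ (by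
      intro o _
      cases o with
      | none => exact hR.ne'
      | some g => exact (hlp g).ne_zero) (by
      intro o _ o' _ hoo
      cases o with
      | none =>
        cases o' with
        | none => exact absurd rfl hoo
        | some g => exact (hcopR g).symm
      | some g =>
        cases o' with
        | none => exact hcopR g
        | some g' => exact hcop2 g g' fun h => hoo (by rw [h]))
  have hyR : R ∣ y := by
    have h1 := hy none (mem_univ _)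
    exact (Nat.modEq_zero_iff_dvd).1 h1
  have hyl : ∀ g, (l g : ℤ) ∣ y + pos g := by
    intro g
    have h1 : y ≡ ((-(pos g)) % (l g : ℤ)).toNat [MOD l g] := hy (some g) (mem_univ _)
    have hl0 : (0 : ℤ) < l g := by exact_mod_cast (hlp g).pos
    have h2 := (Int.natCast_modEq_iff).2 h1
    rw [Int.toNat_of_nonneg (Int.emod_nonneg _ hl0.ne')] at h2
    have h3 : (y : ℤ) ≡ -(pos g) [ZMOD l g] := h2.trans (Int.mod_modEq _ _)
    have h4 := h3.add_right (pos g)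
    rw [neg_add_cancel] at h4
    exact Int.modEq_zero_iff_dvd.1 h4
  have hQ : 0 < R * ∏ i, l i := Nat.mul_pos hR (prod_pos fun g _ => (hlp g).pos)
  refine ⟨y % (R * ∏ i, l i), Nat.mod_lt _ hQ, ?_, fun g => ?_⟩
  · exact (Nat.dvd_mod_iff (Dvd.intro _ rfl)).2 hyR
  · have h1 : ((y % (R * ∏ i, l i) : ℕ) : ℤ) + pos g = y + pos g - ((R * ∏ i, l i : ℕ) : ℤ) * ((y / (R * ∏ i, l i) : ℕ) : ℤ) := by
      have h2 := Nat.mod_add_div y (R * ∏ i, l i)
      have h3 : (y : ℤ) = ((y % (R * ∏ i, l i) : ℕ) : ℤ) + ((R * ∏ i, l i : ℕ) : ℤ) * ((y / (R * ∏ i, l i) : ℕ) : ℤ) := by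
        exact_mod_cast h2.symm
      linarith
    rw [h1]
    refine dvd_sub (hyl g) (Dvd.dvd.mul_right ?_ _)
    have h2 : l g ∣ R * ∏ i, l i := Dvd.dvd.mul_left (dvd_prod_of_mem l (mem_univ g)) R
    exact_mod_cast h2

/-- different large primes -/
theorem exists_primes (Λ : Type) [Fintype Λ] (K : ℕ) : ∃ l : Λ → ℕ, (∀ i, (l i).Prime) ∧ Function.Injective l ∧ ∀ i, K < l i := by
  classical
  let e := Fintype.equivFin Λ
  refine ⟨fun g => Nat.nth Nat.Prime (K + (e g : ℕ)), fun g => Nat.prime_nth_prime _, ?_, ?_⟩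
  · intro g g' h
    have h1 : K + (e g : ℕ) = K + (e g' : ℕ) := Nat.nth_injective Nat.infinite_setOfPred_prime h
    exact e.injective (Fin.ext (by omega))
  · intro g
    have := Nat.add_two_le_nth_prime (K + (e g : ℕ))
    show K < Nat.nth Nat.Prime (K + (e g : ℕ))
    omega

end Pool.Agent.H34.EW
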