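import Pool.Agent.H34.EW.Mod
import Pool.Agent.H34.EW.Cnt
import Pool.Agent.H62.EX.Bxo

/-!
# [H34 EW CFB] Many configurations for which the other points of the box are divisible by fixed primes

`conf_box`: for a dense set `Ef` of a cube there are many configurations (with one cluster element in reserve) and a residue `N₁` modulo
a FIXED `R'` such that `N₁ +` the sites are prime to `R'`, and `N₁ +` each other point of the box (and each reserve site) is divisible by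
a prime divisor of `R'`.
-/

set_option autoImplicit false

namespace Pool.Agent.H34.EW

open Finset Filter Pool.Agent.H34.RR Pool.Agent.H61.UN Pool.Agent.H48.EP Pool.Agent.H34.EU Pool.Agent.H62.EX

/-- the point of the box in barycentric coordinates -/
theorem det_pos {k : ℕ} (M : Matrix (Fin k) (Fin k) ℤ) (x a₁ : Fin k → ℤ) (κ : ℤ) (v : Fin (k + 1) → ℤ)
    (h : ∀ i : Fin k, v i.succ - v 0 = κ * M.mulVec a₁ i) :
    M.det * (v 0 + κ * ∑ i, x i * a₁ i) = ∑ j, bary M x j * v j := by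
  have h2 : M.det * (v 0 + κ * ∑ i, x i * a₁ i) = M.det * v 0 + κ * (M.det * ∑ i, x i * a₁ i) := by ring
  rw [h2, ← dot_adj, mul_sum, Fin.sum_univ_succ]
  unfold bary
  simp only [Fin.cons_zero, Fin.cons_succ]
  have h3 : ∀ i ∈ (univ : Finset (Fin k)), κ * (Matrix.vecMul x M.adjugate i * M.mulVec a₁ i) =
      Matrix.vecMul x M.adjugate i * v i.succ - Matrix.vecMul x M.adjugate i * v 0 := by
    intro i _
    have h4 := h i
    linear_combination -(Matrix.vecMul x M.adjugate i) * h4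
  rw [sum_congr rfl h3, sum_sub_distrib, ← sum_mul]
  ring

/-- the vertices -/
theorem row_pos {k : ℕ} (M : Matrix (Fin k) (Fin k) ℤ) (a₁ : Fin k → ℤ) (κ : ℤ) (v : Fin (k + 1) → ℤ)
    (h : ∀ i : Fin k, v i.succ - v 0 = κ * M.mulVec a₁ i) (j : Fin (k + 1)) :
    v 0 + κ * ∑ i, rws M j i * a₁ i = v j := by
  unfold rws
  refine Fin.cases ?_ (fun i => ?_) j
  · rw [Fin.cons_zero]
    simp
  · rw [Fin.cons_succ]
    have h1 := h i
    have h2 : ∑ i', M i i' * a₁ i' = M.mulVec a₁ i := rfl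
    rw [h2]
    linarith

/-- the indices of the points which must be divisible -/
abbrev Ix {k : ℕ} {δ : ℝ} (S : Sys k δ) (s N : ℕ) (M : Matrix (Fin k) (Fin k) ℤ) : Type :=
  (Fin S.L × (Fin (k + 1) → Fin (s + 1)) × {x : Fin k → ℤ // x ∈ bxF N M}) ⊕ Fin S.m

open Classical in
/-- the linear form of a coincidence -/
noncomputable def Cf {k : ℕ} {δ : ℝ} (S : Sys k δ) (s N : ℕ) (M : Matrix (Fin k) (Fin k) ℤ) :
    Ix S s N M → Fin S.m × Fin (s + 1) → Fin S.m × Fin (s + 1) → ℤ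
  | Sum.inl i, p, p' => cof M i.2.2.1 (fun j => (S.e i.1 j, i.2.1 j)) p p'
  | Sum.inr d, p, p' => (if p' = p then 1 else 0) - (if p' = (d, Fin.last s) then 1 else 0)

theorem sum_Cf_inr {k : ℕ} {δ : ℝ} (S : Sys k δ) (s N : ℕ) (M : Matrix (Fin k) (Fin k) ℤ) (d : Fin S.m)
    (p : Fin S.m × Fin (s + 1)) (v : Fin S.m × Fin (s + 1) → ℤ) :
    ∑ p', Cf S s N M (Sum.inr d) p p' * v p' = v p - v (d, Fin.last s) := by
  classical
  unfold Cf
  simp only [sub_mul, sum_sub_distrib]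
  congr 1
  · rw [sum_eq_single p]
    · rw [if_pos rfl, one_mul]
    · intro p' _ hp'
      rw [if_neg hp', zero_mul]
    · intro h
      exact absurd (mem_univ _) h
  · rw [sum_eq_single (d, Fin.last s)]
    · rw [if_pos rfl, one_mul]
    · intro p' _ hp'
      rw [if_neg hp', zero_mul]
    · intro h
      exact absurd (mem_univ _) h

theorem sum_Cf_inl {k : ℕ} {δ : ℝ} (S : Sys k δ) (s N : ℕ) (M : Matrix (Fin k) (Fin k) ℤ)
    (i : Fin S.L × (Fin (k + 1) → Fin (s + 1)) × {x : Fin k → ℤ // x ∈ bxF N M})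
    (p : Fin S.m × Fin (s + 1)) (v : Fin S.m × Fin (s + 1) → ℤ) :
    ∑ p', Cf S s N M (Sum.inl i) p p' * v p' = M.det * v p - ∑ j, bary M i.2.2.1 j * v (S.e i.1 j, i.2.1 j) := by
  classical
  exact sum_cof M i.2.2.1 (fun j => (S.e i.1 j, i.2.1 j)) p v

theorem sum_Cf_one {k : ℕ} {δ : ℝ} (S : Sys k δ) (s N : ℕ) (M : Matrix (Fin k) (Fin k) ℤ) (i : Ix S s N M)
    (p : Fin S.m × Fin (s + 1)) : ∑ p', Cf S s N M i p p' = 0 := by
  have h0 : ∑ p', Cf S s N M i p p' = ∑ p', Cf S s N M i p p' * (fun _ => (1 : ℤ)) p' := by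
    refine sum_congr rfl fun p' _ => ?_
    rw [mul_one]
  rw [h0]
  rcases i with i | d
  · rw [sum_Cf_inl]
    simp only [mul_one]
    rw [sum_bary, sub_self]
  · rw [sum_Cf_inr, sub_self]

theorem Cf_ne {k : ℕ} {δ : ℝ} (S : Sys k δ) (s N : ℕ) {M : Matrix (Fin k) (Fin k) ℤ} (hM : M.det ≠ 0) (i : Ix S s N M)
    (p : Fin S.m × Fin s) : ∃ p', Cf S s N M i (p.1, p.2.castSucc) p' ≠ 0 := by
  classical
  rcases i with i | d
  · have hinj : Function.Injective (fun j => (S.e i.1 j, i.2.1 j)) := by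
      intro j j' h
      rw [Prod.mk.injEq] at h
      exact S.inj i.1 h.1
    have h1 := cof_ne hM i.2.2.2 _ hinj (p.1, p.2.castSucc)
    by_contra hcon
    push Not at hcon
    exact h1 (funext hcon)
  · refine ⟨(p.1, p.2.castSucc), ?_⟩
    have h1 : (p.1, p.2.castSucc) ≠ (d, Fin.last s) := by
      intro h
      rw [Prod.mk.injEq] at h
      exact (Fin.castSucc_lt_last p.2).ne h.2
    show (if (p.1, p.2.castSucc) = (p.1, p.2.castSucc) then (1 : ℤ) else 0) -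
      (if (p.1, p.2.castSucc) = (d, Fin.last s) then 1 else 0) ≠ 0
    rw [if_pos rfl, if_neg h1]
    norm_num

open Classical in
theorem conf_box {k : ℕ} {δ : ℝ} (S : Sys k δ) (s N : ℕ) (M : Matrix (Fin k) (Fin k) ℤ) (hM : M.det ≠ 0) (ε : ℝ) (hε : 0 < ε) :
    ∃ (c₁ : ℝ) (z₀ : ℕ), 0 < c₁ ∧ ∀ R : ℕ, 0 < R → ∀ ρ : ℕ, Nat.Coprime ρ R → ∃ R' : ℕ, 0 < R' ∧ R ∣ R' ∧
      ∀ z : ℕ, z₀ ≤ z → ∀ (b : Fin k → ℤ) (Ef : Finset (Fin k → ℤ)), (∀ a ∈ Ef, ∀ i, b i < a i ∧ a i ≤ b i + z) →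
      ε * (z : ℝ) ^ k ≤ Ef.card → ∀ (τ : Fin S.m → ℕ) (Mb : ℤ),
      (∀ v, (τ v : ℤ) = ρ + R * (∑ i, (S.c v i : ℤ) * M.mulVec b i + Mb)) → ∃ N₁ : ℕ, N₁ < R' ∧ R ∣ N₁ ∧
      ∃ 𝒰 : Finset (Fin S.m × Fin (s + 1) → ℕ),
        c₁ / R' * (((2 * k * S.n + 1) * ((∑ i, ∑ j, (M i j).natAbs + 1) * z) : ℕ) : ℝ) ^ (S.m * (s + 1)) ≤ 𝒰.card ∧
        ∀ u ∈ 𝒰, (∀ p, u p ≤ (2 * k * S.n + 1) * ((∑ i, ∑ j, (M i j).natAbs + 1) * z)) ∧
          Function.Injective (fun p => τ p.1 + R * u p) ∧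
          (∀ p : Fin S.m × Fin s, Nat.Coprime (N₁ + (τ p.1 + R * u (p.1, p.2.castSucc))) R') ∧
          (∀ (a : Fin S.L) (t : Fin (k + 1) → Fin (s + 1)), ∃ a₁ ∈ Ef,
            (∀ i : Fin k, ((τ (S.e a i.succ) + R * u (S.e a i.succ, t i.succ) : ℕ) : ℤ) -
              ((τ (S.e a 0) + R * u (S.e a 0, t 0) : ℕ) : ℤ) = ((R * S.μ a : ℕ) : ℤ) * M.mulVec a₁ i) ∧
            ∀ x ∈ bxF N M, ∃ l : ℕ, l.Prime ∧ l ∣ R' ∧
              (l : ℤ) ∣ N₁ + (((τ (S.e a 0) + R * u (S.e a 0, t 0) : ℕ) : ℤ) + ((R * S.μ a : ℕ) : ℤ) * ∑ i, x i * a₁ i)) ∧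
          ∀ d : Fin S.m, ∃ l : ℕ, l.Prime ∧ l ∣ R' ∧ (l : ℤ) ∣ N₁ + ((τ d + R * u (d, Fin.last s) : ℕ) : ℤ) := by
  obtain ⟨Cz, hCz⟩ : ∃ Cz : ℕ, Cz = ∑ i, ∑ j, (M i j).natAbs + 1 := ⟨_, rfl⟩
  have hCz1 : 1 ≤ Cz := by omega
  have hCz0 : (0 : ℝ) < Cz := by exact_mod_cast hCz1
  obtain ⟨c₁, z₀, l₀, hc₁, hconf⟩ := many_confM S (s + 1) (by omega) (Ix S s N M × (Fin S.m × Fin s)) (ε / (Cz : ℝ) ^ k)
    (by positivity)
  refine ⟨c₁, z₀, hc₁, fun R hR ρ hρ => ?_⟩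
  obtain ⟨Kc, hKc⟩ : ∃ Kc : ℕ, Kc = ∑ i : Ix S s N M, ∑ p, ∑ p', (Cf S s N M i p p').natAbs := ⟨_, rfl⟩
  obtain ⟨l, hlp, hlinj, hlK⟩ := exists_primes (Ix S s N M) (l₀ + R + Kc)
  have hlR : ∀ i, R < l i := by
    intro i
    have := hlK i
    omega
  have hRz : (0 : ℤ) < R := by exact_mod_cast hR
  have hlRd : ∀ i, ¬ (l i : ℤ) ∣ R := by
    intro i h
    have h1 : l i ∣ R := by exact_mod_cast h
    have h2 := Nat.le_of_dvd hR h1
    have h3 := hlR i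
    omega
  obtain ⟨R', hR'⟩ : ∃ R' : ℕ, R' = R * ∏ i, l i := ⟨_, rfl⟩
  have hR'0 : 0 < R' := by
    rw [hR']
    exact Nat.mul_pos hR (prod_pos fun i _ => (hlp i).pos)
  have hR'r : (0 : ℝ) < R' := by exact_mod_cast hR'0
  have hldR : ∀ i, l i ∣ R' := by
    intro i
    rw [hR']
    exact Dvd.dvd.mul_left (dvd_prod_of_mem l (mem_univ i)) R
  refine ⟨R', hR'0, by rw [hR']; exact dvd_mul_right _ _, fun z hz b Ef hEf hEfc τ Mb hτ => ?_⟩
  -- the image of the translate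
  obtain ⟨E', hE'⟩ : ∃ E' : Finset (Fin k → ℤ), E' = Ef.image (fun a => M.mulVec (a - b)) := ⟨_, rfl⟩
  have hEc : E'.card = Ef.card := by
    rw [hE']
    exact card_image_of_injective _ (fun x y h => sub_left_injective (mulVec_inj hM h))
  have hEz : ∀ a ∈ E', ∀ i, |a i| ≤ ((Cz * z : ℕ) : ℤ) := by
    intro a ha i
    rw [hE', mem_image] at ha
    obtain ⟨a', ha', rfl⟩ := ha
    rw [hCz]
    refine mulVec_le M _ z (fun j => ?_) i
    have h1 := hEf a' ha' j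
    rw [Pi.sub_apply, abs_le]
    constructor
    · have : (0 : ℤ) ≤ z := Nat.cast_nonneg _
      linarith [h1.1]
    · linarith [h1.2]
  obtain ⟨θ, hθ⟩ : ∃ θ : Fin S.m → ℤ, θ = fun v => ∑ i, (S.c v i : ℤ) * M.mulVec b i := ⟨_, rfl⟩
  have hτ' : ∀ v, (τ v : ℤ) = ρ + R * (θ v + Mb) := by
    intro v
    rw [hτ v, hθ]
  obtain ⟨𝒰, h𝒰1, h𝒰2⟩ := hconf (Cz * z) (hz.trans (Nat.le_mul_of_pos_left z hCz1)) E' hEz (by
    rw [hEc]
    refine le_trans (le_of_eq ?_) hEfc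
    push_cast
    rw [mul_pow]
    field_simp) θ (fun i => Cf S s N M i.1 (i.2.1, i.2.2.castSucc))
    (fun i => - ∑ p, Cf S s N M i.1 (i.2.1, i.2.2.castSucc) p * θ p.1) (fun i => l i.1) (fun i => hlp i.1) (fun i => by
      have := hlK i.1
      omega) (fun i => by
      obtain ⟨p', hp'⟩ := Cf_ne S s N hM i.1 i.2
      refine ⟨p', fun hdv => hp' ?_⟩
      have h1 : (Cf S s N M i.1 (i.2.1, i.2.2.castSucc) p').natAbs ≤ Kc := by
        rw [hKc]
        have h2 := single_le_sum (f := fun i : Ix S s N M => ∑ p, ∑ p', (Cf S s N M i p p').natAbs)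
          (fun _ _ => Nat.zero_le _) (mem_univ i.1)
        have h3 := single_le_sum (f := fun p => ∑ p', (Cf S s N M i.1 p p').natAbs)
          (fun _ _ => Nat.zero_le _) (mem_univ (i.2.1, i.2.2.castSucc))
        have h4 := single_le_sum (f := fun p' => (Cf S s N M i.1 (i.2.1, i.2.2.castSucc) p').natAbs)
          (fun _ _ => Nat.zero_le _) (mem_univ p')
        exact h4.trans (h3.trans h2)
      refine Int.eq_zero_of_abs_lt_dvd hdv ?_
      rw [Int.abs_eq_natAbs]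
      have h5 := hlK i.1
      exact_mod_cast (by omega : (Cf S s N M i.1 (i.2.1, i.2.2.castSucc) p').natAbs < l i.1))
  rw [← hCz]
  -- the sites
  obtain ⟨v, hv⟩ : ∃ v : (Fin S.m × Fin (s + 1) → ℕ) → Fin S.m × Fin (s + 1) → ℕ, v = fun u p => τ p.1 + R * u p := ⟨_, rfl⟩
  have hvz : ∀ u p, (v u p : ℤ) = ρ + R * Mb + R * (u p + θ p.1) := by
    intro u p
    rw [hv]
    push_cast
    rw [hτ']
    ring
  have hvinj : ∀ u ∈ 𝒰, Function.Injective (v u) := by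
    intro u hu p p' hpp
    apply (h𝒰1 u hu).2.1
    have h1 : (v u p : ℤ) = v u p' := by rw [hpp]
    rw [hvz, hvz] at h1
    have h2 : (R : ℤ) * (u p + θ p.1) = R * (u p' + θ p'.1) := by linarith
    exact mul_left_cancel₀ hRz.ne' h2
  have hvρ : ∀ u p, v u p ≡ ρ [MOD R] := by
    intro u p
    refine (Int.natCast_modEq_iff).1 ?_
    rw [hvz]
    have h1 : (ρ : ℤ) + R * Mb + R * (u p + θ p.1) = ρ + R * (Mb + (u p + θ p.1)) := by ring
    rw [h1]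
    exact (Int.modEq_iff_dvd).2 ⟨-(Mb + (u p + θ p.1)), by ring⟩
  have hsumv : ∀ (u : Fin S.m × Fin (s + 1) → ℕ) (i : Ix S s N M) (p : Fin S.m × Fin (s + 1)),
      ∑ p', Cf S s N M i p p' * (v u p' : ℤ) =
        R * (∑ p', Cf S s N M i p p' * (u p' : ℤ) - - ∑ p', Cf S s N M i p p' * θ p'.1) := by
    intro u i p
    have h1 : ∑ p', Cf S s N M i p p' * (v u p' : ℤ) = (ρ + R * Mb) * ∑ p', Cf S s N M i p p' +
        R * (∑ p', Cf S s N M i p p' * (u p' : ℤ) + ∑ p', Cf S s N M i p p' * θ p'.1) := by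
      rw [mul_sum, ← sum_add_distrib, mul_sum, ← sum_add_distrib]
      refine sum_congr rfl fun p' _ => ?_
      rw [hvz]
      ring
    rw [h1, sum_Cf_one, mul_zero, zero_add, sub_neg_eq_add]
  -- the points of the dense set
  have hA : ∀ u : Fin S.m × Fin (s + 1) → ℕ, ∃ A1 : Fin S.L → (Fin (k + 1) → Fin (s + 1)) → (Fin k → ℤ), u ∈ 𝒰 →
      ∀ a t, A1 a t ∈ Ef ∧ ∀ i : Fin k, (v u (S.e a i.succ, t i.succ) : ℤ) - (v u (S.e a 0, t 0) : ℤ) =
        ((R * S.μ a : ℕ) : ℤ) * M.mulVec (A1 a t) i := by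
    intro u
    by_cases hu : u ∈ 𝒰
    · have h1 : ∀ (a : Fin S.L) (t : Fin (k + 1) → Fin (s + 1)), ∃ a₁, a₁ ∈ Ef ∧
        ∀ i : Fin k, (v u (S.e a i.succ, t i.succ) : ℤ) - (v u (S.e a 0, t 0) : ℤ) =
          ((R * S.μ a : ℕ) : ℤ) * M.mulVec a₁ i := by
        intro a t
        obtain ⟨b', hb', hbd⟩ := (h𝒰1 u hu).2.2.2 a t
        rw [hE', mem_image] at hb'
        obtain ⟨a₁, ha₁, rfl⟩ := hb'
        refine ⟨a₁, ha₁, fun i => ?_⟩
        rw [hvz, hvz, hθ]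
        have h1 := hbd i
        have h2 : ∑ j, (S.c (S.e a i.succ) j : ℤ) * M.mulVec b j =
            ∑ j, (S.c (S.e a 0) j : ℤ) * M.mulVec b j + S.μ a * M.mulVec b i := by
          rw [← sub_eq_iff_eq_add', ← sum_sub_distrib, sum_eq_single i]
          · rw [S.smp, if_pos rfl]
            push_cast
            ring
          · intro j _ hj
            rw [S.smp, if_neg (Ne.symm hj), Nat.add_zero, sub_self]
          · intro hh
            exact absurd (mem_univ _) hh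
        dsimp only
        rw [h2]
        rw [Matrix.mulVec_sub, Pi.sub_apply] at h1
        push_cast
        linear_combination (R : ℤ) * h1
      choose A1 hA1 using h1
      exact ⟨A1, fun _ => hA1⟩
    · exact ⟨fun _ _ => 0, fun h => absurd h hu⟩
  choose A1 hA1 using hA
  -- the positions
  obtain ⟨pos, hpos⟩ : ∃ pos : (Fin S.m × Fin (s + 1) → ℕ) → Ix S s N M → ℤ, pos = fun u i => Sum.elim
      (fun i => (v u (S.e i.1 0, i.2.1 0) : ℤ) + ((R * S.μ i.1 : ℕ) : ℤ) * ∑ j, i.2.2.1 j * A1 u i.1 i.2.1 j)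
      (fun d => (v u (d, Fin.last s) : ℤ)) i := ⟨_, rfl⟩
  have hkey : ∀ u ∈ 𝒰, ∀ (i : Ix S s N M) (p : Fin S.m × Fin s), ∃ κ : ℤ,
      κ * ((v u (p.1, p.2.castSucc) : ℤ) - pos u i) = ∑ p', Cf S s N M i (p.1, p.2.castSucc) p' * (v u p' : ℤ) := by
    intro u hu i p
    rcases i with i | d
    · refine ⟨M.det, ?_⟩
      rw [sum_Cf_inl, mul_sub]
      have h1 := det_pos M i.2.2.1 (A1 u i.1 i.2.1) ((R * S.μ i.1 : ℕ) : ℤ) (fun j => (v u (S.e i.1 j, i.2.1 j) : ℤ))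
        (hA1 u hu i.1 i.2.1).2
      rw [hpos]
      show M.det * _ - M.det * ((v u (S.e i.1 0, i.2.1 0) : ℤ) +
        ((R * S.μ i.1 : ℕ) : ℤ) * ∑ j, i.2.2.1 j * A1 u i.1 i.2.1 j) = _
      rw [h1]
    · refine ⟨1, ?_⟩
      rw [sum_Cf_inr, one_mul, hpos]
      rfl
  -- the residues
  have hres := fun u => crt_mod R hR l hlp hlinj hlR (pos u)
  choose n₁ hn₁ hn₂ hn₃ using hres
  rw [← hR'] at hn₁
  have hcop : ∀ u ∈ 𝒰, ∀ p : Fin S.m × Fin s, Nat.Coprime (n₁ u + v u (p.1, p.2.castSucc)) R' := by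
    intro u hu p
    rw [hR', Nat.coprime_mul_iff_right]
    constructor
    · obtain ⟨y', hy'⟩ := hn₂ u
      rw [hy', Nat.add_comm]
      refine (Nat.coprime_add_mul_left_left _ _ _).2 ?_
      exact (Nat.ModEq.gcd_eq (hvρ u _)).trans hρ
    · rw [Nat.coprime_prod_right_iff]
      intro i _
      refine Nat.Coprime.symm ((hlp i).coprime_iff_not_dvd.2 fun h => ?_)
      have h1 : (l i : ℤ) ∣ ((n₁ u + v u (p.1, p.2.castSucc) : ℕ) : ℤ) := by exact_mod_cast h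
      have h2 := dvd_sub h1 (hn₃ u i)
      have h3 : ((n₁ u + v u (p.1, p.2.castSucc) : ℕ) : ℤ) - (n₁ u + pos u i) = (v u (p.1, p.2.castSucc) : ℤ) - pos u i := by
        push_cast
        ring
      rw [h3] at h2
      obtain ⟨κ, hκ⟩ := hkey u hu i p
      have h4 := Dvd.dvd.mul_left h2 κ
      rw [hκ, hsumv] at h4
      rcases (Nat.prime_iff_prime_int.1 (hlp i)).dvd_or_dvd h4 with h5 | h5
      · exact hlRd i h5
      · exact (h𝒰1 u hu).2.2.1 (i, p) h5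
  -- one residue
  obtain ⟨Cl, hCl⟩ : ∃ Cl : Finset ℕ, Cl = (range R').filter (fun y => R ∣ y) := ⟨_, rfl⟩
  have hClc : (Cl.card : ℝ) ≤ R' := by
    rw [hCl]
    have h1 := card_filter_le (range R') (fun y => R ∣ y)
    rw [card_range] at h1
    exact_mod_cast h1
  obtain ⟨N₁, hN₁', hN₁c⟩ : ∃ N₁ ∈ Cl, (𝒰.card : ℝ) / R' ≤ ((𝒰.filter (fun u => n₁ u = N₁)).card : ℝ) := by
    refine exists_le_of_sum_le (s := Cl) (f := fun _ => (𝒰.card : ℝ) / R')
      (g := fun N₁ => ((𝒰.filter (fun u => n₁ u = N₁)).card : ℝ))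
      ⟨0, by rw [hCl]; exact mem_filter.2 ⟨mem_range.2 hR'0, dvd_zero R⟩⟩ ?_
    rw [sum_const, nsmul_eq_mul, ← Nat.cast_sum,
      ← card_eq_sum_card_fiberwise (f := n₁) (s := 𝒰) (t := Cl) (fun u _ => by
        rw [hCl]
        exact mem_coe.2 (mem_filter.2 ⟨mem_range.2 (hn₁ u), hn₂ u⟩))]
    calc (Cl.card : ℝ) * (𝒰.card / R') ≤ R' * (𝒰.card / R') := mul_le_mul_of_nonneg_right hClc (by positivity)
      _ = 𝒰.card := by field_simp
  rw [hCl, mem_filter, mem_range] at hN₁'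
  obtain ⟨hN₁, hdv⟩ := hN₁'
  refine ⟨N₁, hN₁, hdv, 𝒰.filter (fun u => n₁ u = N₁), ?_, ?_⟩
  · refine le_trans ?_ hN₁c
    rw [div_mul_eq_mul_div]
    exact div_le_div_of_nonneg_right h𝒰2 hR'r.le
  · intro u hu
    obtain ⟨hu1, hu2⟩ := mem_filter.1 hu
    have hvd : ∀ p : Fin S.m × Fin (s + 1), v u p = τ p.1 + R * u p := by
      intro p
      rw [hv]
    refine ⟨(h𝒰1 u hu1).1, ?_, fun p => ?_, fun a t => ?_, fun d => ?_⟩
    · have h1 := hvinj u hu1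
      rw [hv] at h1
      exact h1
    · have h1 := hcop u hu1 p
      rw [hu2, hvd] at h1
      exact h1
    · refine ⟨A1 u a t, (hA1 u hu1 a t).1, fun i => ?_, fun x hx => ?_⟩
      · have h1 := (hA1 u hu1 a t).2 i
        rw [hvd, hvd] at h1
        exact h1
      · refine ⟨l (Sum.inl (a, t, ⟨x, hx⟩)), hlp _, hldR _, ?_⟩
        have h1 := hn₃ u (Sum.inl (a, t, ⟨x, hx⟩))
        rw [hu2, hpos] at h1
        have h2 : (l (Sum.inl (a, t, ⟨x, hx⟩)) : ℤ) ∣ N₁ + ((v u (S.e a 0, t 0) : ℤ) +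
          ((R * S.μ a : ℕ) : ℤ) * ∑ j, x j * A1 u a t j) := h1
        rw [hvd] at h2
        exact h2
    · refine ⟨l (Sum.inr d), hlp _, hldR _, ?_⟩
      have h1 := hn₃ u (Sum.inr d)
      rw [hu2, hpos] at h1
      have h2 : (l (Sum.inr d) : ℤ) ∣ N₁ + (v u (d, Fin.last s) : ℤ) := h1
      rw [hvd] at h2
      exact h2

end Pool.Agent.H34.EW
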