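import Pool.Agent.H34.EU.Fin
import Pool.Agent.H34.EW.Cfb

/-!
# [H34 EW BX1] Exact patterns in a box with the expected order, for one nonsingular matrix

`box_cnt_one`: for almost all `a` there is a multiplier `m` such that for every subset `J` of the vertices `0, M_1, .., M_k` many `t ≤ X`
are such that, for the `x` in the box `|x_i| ≤ N`, `t + m (x . a)` is prime exactly for the `x` in `J`.
-/

set_option autoImplicit false

namespace Pool.Agent.H34.EW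

open Finset Filter Pool.Agent.H34.RR Pool.Agent.H61.UN Pool.Agent.H48.EP Pool.Agent.H34.EQ Pool.Agent.H34.EU Pool.Agent.H62.EX

/-- the relation between the parameters and the sites -/
def Rl {k r : ℕ} {δ : ℝ} (S : Sys k δ) (R : ℕ) (M : Matrix (Fin k) (Fin k) ℤ) (Jf : Fin S.L → Finset (Fin (k + 1)))
    (τ : Fin S.m → ℕ) (i : Fin S.L × (Fin k → ℤ) × Fin r) (y : ℕ) (g w : Fin S.m → ℕ) (z : Fin (k + 1) → ℕ) : Prop :=
  (∀ j ∈ Jf i.1, (z j : ℤ) = y + ((R * S.μ i.1 : ℕ) : ℤ) * ∑ i', rws M j i' * i.2.1 i') ∧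
  (∀ j, j ∉ Jf i.1 → ((τ (S.e i.1 j) + R * w (S.e i.1 j) : ℕ) : ℤ) =
    y + ((R * S.μ i.1 : ℕ) : ℤ) * ∑ i', rws M j i' * i.2.1 i' ∧ z j = g (S.e i.1 j)) ∧
  ∀ d, (∀ j, j ∉ Jf i.1 → S.e i.1 j ≠ d) → w d = g d

theorem Rl_unique {k r : ℕ} {δ : ℝ} (S : Sys k δ) (R : ℕ) (hR : 0 < R) (M : Matrix (Fin k) (Fin k) ℤ)
    (Jf : Fin S.L → Finset (Fin (k + 1))) (τ : Fin S.m → ℕ) (i : Fin S.L × (Fin k → ℤ) × Fin r) (y : ℕ) (g w : Fin S.m → ℕ)
    (z : Fin (k + 1) → ℕ) (w' : Fin S.m → ℕ) (z' : Fin (k + 1) → ℕ) (h : Rl S R M Jf τ i y g w z)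
    (h' : Rl S R M Jf τ i y g w' z') : w = w' ∧ z = z' := by
  obtain ⟨h1, h2, h3⟩ := h
  obtain ⟨h1', h2', h3'⟩ := h'
  constructor
  · funext d
    by_cases hd : ∃ j, j ∉ Jf i.1 ∧ S.e i.1 j = d
    · obtain ⟨j, hj, rfl⟩ := hd
      have h4 := (h2 j hj).1.trans (h2' j hj).1.symm
      have h5 : τ (S.e i.1 j) + R * w (S.e i.1 j) = τ (S.e i.1 j) + R * w' (S.e i.1 j) := by exact_mod_cast h4
      exact Nat.eq_of_mul_eq_mul_left hR (Nat.add_left_cancel h5)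
    · push Not at hd
      rw [h3 d hd, h3' d hd]
  · funext j
    by_cases hj : j ∈ Jf i.1
    · have h4 := (h1 j hj).trans (h1' j hj).symm
      exact_mod_cast h4
    · rw [(h2 j hj).2, (h2' j hj).2]

/-- the exact pattern -/
theorem pat_of_conf {k r : ℕ} {δ : ℝ} (S : Sys k δ) (s N W s₀ R R' N₁ : ℕ) (M : Matrix (Fin k) (Fin k) ℤ) (χ : ℕ → Fin r)
    (q : Fin r) (v : Fin S.m × Fin (s + 1) → ℕ) (N' : ℕ) (J : Finset (Fin (k + 1))) (a : Fin S.L)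
    (t : Fin (k + 1) → Fin s) (t' : Fin (k + 1) → Fin (s + 1)) (ht' : t' = fun j => if j ∈ J then (t j).castSucc else Fin.last s)
    (a₁ : Fin k → ℤ) (hd : ∀ i : Fin k, (v (S.e a i.succ, t' i.succ) : ℤ) - (v (S.e a 0, t' 0) : ℤ) =
      ((R * S.μ a : ℕ) : ℤ) * M.mulVec a₁ i) (hR' : 0 < R')
    (hx : ∀ x ∈ bxF N M, ∃ l : ℕ, l.Prime ∧ l ∣ R' ∧
      (l : ℤ) ∣ N₁ + ((v (S.e a 0, t' 0) : ℤ) + ((R * S.μ a : ℕ) : ℤ) * ∑ i, x i * a₁ i))
    (hl : ∀ d : Fin S.m, ∃ l : ℕ, l.Prime ∧ l ∣ R' ∧ (l : ℤ) ∣ N₁ + (v (d, Fin.last s) : ℤ)) (hN' : R' ∣ N') (hN'R : R' < N')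
    (hbig : ∀ x : Fin k → ℤ, (∀ i, |x i| ≤ N) →
      (R' : ℤ) < N' + (N₁ + ((v (S.e a 0, t' 0) : ℤ) + ((R * S.μ a : ℕ) : ℤ) * ∑ i, x i * a₁ i)))
    (hpr : ∀ j, Pr W s₀ χ q (N' + (N₁ + v (S.e a j, (t j).castSucc)))) :
    BoxPat W s₀ χ q N (J.image (rws M)) (R * S.μ a) a₁ (N' + (N₁ + v (S.e a 0, t' 0))) := by
  classical
  have hlR : ∀ l : ℕ, l ∣ R' → l ≤ R' := fun l h => Nat.le_of_dvd hR' h
  have hrow := row_pos M a₁ ((R * S.μ a : ℕ) : ℤ) (fun j => (v (S.e a j, t' j) : ℤ)) hd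
  intro x hxN
  have hposx : ((N' + (N₁ + v (S.e a 0, t' 0)) : ℕ) : ℤ) + ((R * S.μ a : ℕ) : ℤ) * ∑ i, x i * a₁ i =
      (N' : ℤ) + (N₁ + ((v (S.e a 0, t' 0) : ℤ) + ((R * S.μ a : ℕ) : ℤ) * ∑ i, x i * a₁ i)) := by
    push_cast
    ring
  have hnotprime : ∀ (l p' : ℕ), l.Prime → l ∣ R' → l ∣ p' → R' < p' → ¬ p'.Prime := by
    intro l p' hl1 hl2 hl3 hl4 hp'
    rcases (Nat.dvd_prime hp').1 hl3 with h | h
    · exact hl1.one_lt.ne' h
    · have := hlR l hl2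
      omega
  by_cases hr1 : ∃ j, x = rws M j
  · -- a vertex of the simplex
    have hex : ∃ j, x = rws M j ∧ (x ∈ J.image (rws M) ↔ j ∈ J) := by
      by_cases hxJ : x ∈ J.image (rws M)
      · obtain ⟨j, hj, hjx⟩ := mem_image.1 hxJ
        exact ⟨j, hjx.symm, fun _ => hj, fun _ => hxJ⟩
      · obtain ⟨j, hj⟩ := hr1
        exact ⟨j, hj, fun h => absurd h hxJ, fun h => by rw [hj]; exact mem_image_of_mem _ h⟩
    obtain ⟨j, hj, hjJ⟩ := hex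
    refine ⟨N' + (N₁ + v (S.e a j, t' j)), ?_, fun h => ?_, fun h => ?_⟩
    · rw [hposx]
      have h1 := hrow j
      rw [← hj] at h1
      rw [h1]
      push_cast
      rfl
    · rw [ht']
      show Pr W s₀ χ q (N' + (N₁ + v (S.e a j, if j ∈ J then (t j).castSucc else Fin.last s)))
      rw [if_pos (hjJ.1 h)]
      exact hpr j
    · rw [ht']
      show ¬ (N' + (N₁ + v (S.e a j, if j ∈ J then (t j).castSucc else Fin.last s))).Prime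
      rw [if_neg (fun h2 => h (hjJ.2 h2))]
      obtain ⟨l, hl1, hl2, hl3⟩ := hl (S.e a j)
      refine hnotprime l _ hl1 hl2 ?_ (by omega)
      have h3 : l ∣ N₁ + v (S.e a j, Fin.last s) := by exact_mod_cast hl3
      exact dvd_add (hl2.trans hN') h3
  · push Not at hr1
    have hxb : x ∈ bxF N M := mem_bxF.2 ⟨hxN, hr1⟩
    obtain ⟨l, hl1, hl2, hl3⟩ := hx x hxb
    have hb := hbig x hxN
    have hge : 0 ≤ (N' : ℤ) + (N₁ + ((v (S.e a 0, t' 0) : ℤ) + ((R * S.μ a : ℕ) : ℤ) * ∑ i, x i * a₁ i)) := by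
      have : (0 : ℤ) ≤ R' := Nat.cast_nonneg _
      linarith
    refine ⟨((N' : ℤ) + (N₁ + ((v (S.e a 0, t' 0) : ℤ) + ((R * S.μ a : ℕ) : ℤ) * ∑ i, x i * a₁ i))).toNat, ?_, fun h => ?_,
      fun _ => ?_⟩
    · rw [Int.toNat_of_nonneg hge, hposx]
    · obtain ⟨j, -, hjx⟩ := mem_image.1 h
      exact absurd hjx.symm (hr1 j)
    · refine hnotprime l _ hl1 hl2 ?_ ?_
      · have h4 : (l : ℤ) ∣ N' := by exact_mod_cast hl2.trans hN'
        have h5 := dvd_add h4 hl3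
        rw [← Int.toNat_of_nonneg hge] at h5
        exact_mod_cast h5
      · have h4 : (R' : ℤ) < (((N' : ℤ) + (N₁ + ((v (S.e a 0, t' 0) : ℤ) +
            ((R * S.μ a : ℕ) : ℤ) * ∑ i, x i * a₁ i))).toNat : ℤ) := by
          rw [Int.toNat_of_nonneg hge]
          exact hb
        exact_mod_cast h4

end Pool.Agent.H34.EW
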