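import Pool.Agent.H34.EW.Bx1

/-!
# [H34 EW BX2] Exact patterns in a box with the expected order, for one nonsingular matrix

`box_cnt_one`: for almost all `a` there is a multiplier `m` such that for every subset `J` of the vertices `0, M_1, .., M_k` many `t ≤ X`
are such that, for the `x` in the box `|x_i| ≤ N`, `t + m (x . a)` is prime exactly for the `x` in `J`.
-/

set_option autoImplicit false

namespace Pool.Agent.H34.EW

open Finset Filter Pool.Agent.H34.RR Pool.Agent.H61.UN Pool.Agent.H48.EP Pool.Agent.H34.EQ Pool.Agent.H34.EU Pool.Agent.H62.EX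

open Classical in
/-- **exact patterns in a box, with the expected order, for one matrix** -/
theorem box_cnt_one (k r N : ℕ) (M : Matrix (Fin k) (Fin k) ℤ) (hM : M.det ≠ 0) : ∃ D n P : ℕ, 0 < P ∧
    ∀ c : Fin n → ℕ, (∀ i, 1 ≤ c i) → ∀ ε : ℝ, 0 < ε → ∃ B : ℕ, ∀ W s₀ : ℕ, 0 < W → Nat.Coprime s₀ W → ∀ A : ℕ,
    ∃ (d : ℝ) (X₀ : ℕ), 0 < d ∧ ∀ (χ : ℕ → Fin r) (X z : ℕ) (b : Fin k → ℤ), X₀ ≤ X → B ≤ z →
      (z : ℝ) ≤ Real.log X ^ A → (∀ j, |(b j : ℝ)| ≤ Real.log X ^ A) →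
      (((Fintype.piFinset (fun j : Fin k => Ioc (b j) (b j + z))).filter (fun a => ¬ ∃ I : Finset (Fin n), I.Nonempty ∧
        ∀ J : Finset (Fin (k + 1)), ∃ q : Fin r, d * min 1 (z / Real.log X) ^ D * X ≤
          Real.log X ^ (k + 1) *
            ({t : ℕ | t ≤ X ∧ BoxPat W s₀ χ q N (J.image (rws M)) (P * W * ∑ i ∈ I, c i) a t}.ncard : ℝ))).card : ℝ) ≤
            ε * (z : ℝ) ^ k := by
  rcases Nat.eq_zero_or_pos r with hr | hr
  · subst hr
    exact ⟨0, 0, 1, one_pos, fun _ _ _ _ => ⟨0, fun _ _ _ _ _ => ⟨1, 0, one_pos, fun χ => (χ 0).elim0⟩⟩⟩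
  have hr0 : (0 : ℝ) < r := by exact_mod_cast hr
  obtain ⟨n, m, hm, hsys⟩ := sys_words_c k (1 / (100 * (r : ℝ))) (by positivity)
  obtain ⟨s, hs, wd, H0, hH0, hsv⟩ := sieveO m hm (k + 1)
  obtain ⟨P, hPd⟩ : ∃ P : ℕ, P = primorial wd := ⟨_, rfl⟩
  have hP : 0 < P := by rw [hPd]; exact primorial_pos wd
  refine ⟨3 * (m * s), n, P, hP, fun c hc ε hε => ?_⟩
  obtain ⟨S, hSm, hSI⟩ := hsys c hc
  subst hSm
  choose Im hIm1 hIm2 using hSI
  -- the number of choices of the subset for each multiplier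
  obtain ⟨Nf, hNf⟩ : ∃ Nf : ℕ, Nf = Fintype.card (Finset (Fin n) → Finset (Fin (k + 1))) := ⟨_, rfl⟩
  have hNf0 : (0 : ℝ) < Nf := by
    rw [hNf]
    exact_mod_cast Fintype.card_pos
  obtain ⟨c₁, z₀, hc₁, hconf⟩ := conf_box S s N M hM (ε / Nf) (by positivity)
  obtain ⟨Cz, hCz⟩ : ∃ Cz : ℕ, Cz = ∑ i, ∑ j, (M i j).natAbs + 1 := ⟨_, rfl⟩
  have hCz1 : 1 ≤ Cz := by omega
  refine ⟨z₀ + ⌈H0⌉₊ + 1, fun W s₀ hW hs₀ A => ?_⟩
  have hm0 : (0 : ℝ) < S.m := by exact_mod_cast S.hm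
  obtain ⟨R, hRd⟩ : ∃ R : ℕ, R = P * W := ⟨_, rfl⟩
  have hR : 0 < R := by rw [hRd]; exact Nat.mul_pos hP hW
  have hRr : (0 : ℝ) < R := by exact_mod_cast hR
  have hR1 : (1 : ℝ) ≤ R := by exact_mod_cast hR
  have hRw : primorial wd ∣ R := by rw [hRd, hPd]; exact Dvd.intro _ rfl
  have hWR : W ∣ R := by rw [hRd]; exact Dvd.intro_left _ rfl
  have : NeZero W := ⟨hW.ne'⟩
  obtain ⟨ρ, hρ1, hρ2, hρ3⟩ := Nat.forall_exists_prime_gt_and_modEq R hW.ne' hs₀
  have hρR := Nat.coprime_of_lt_prime hR.ne' hρ1 hρ2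
  obtain ⟨R', hR'0, hRR', hconf⟩ := hconf R hR ρ hρR
  have hR'r : (0 : ℝ) < R' := by exact_mod_cast hR'0
  obtain ⟨K, hK⟩ : ∃ K : ℕ, K = 2 * k * S.n + 1 := ⟨_, rfl⟩
  have hK0 : 0 < K := by omega
  rw [← hCz, ← hK] at hconf
  obtain ⟨C, hC⟩ : ∃ C : ℕ, C = R' + ρ + R * (K * Cz + 2 * (k * S.n * Cz)) := ⟨_, rfl⟩
  obtain ⟨C₂, hC₂⟩ : ∃ C₂ : ℕ, C₂ = C + R * S.n * (k * (N * 2)) + R' + 1 := ⟨_, rfl⟩
  obtain ⟨w, hw⟩ : ∃ w : ℕ, w = S.m * s := ⟨_, rfl⟩
  -- the constants of the fibres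
  obtain ⟨c₃, hc₃⟩ : ∃ c₃ : ℝ, c₃ = c₁ / R' := ⟨_, rfl⟩
  have hc₃0 : 0 < c₃ := by rw [hc₃]; positivity
  obtain ⟨δ, T, hδ, hT, hx⟩ := hsv (A + 1) (fun _ => 100 / (S.m : ℝ)) (fun _ => by positivity) (by
    rw [sum_const, card_univ, Fintype.card_fin, nsmul_eq_mul]
    rw [mul_div_cancel₀ _ hm0.ne']) R' hR'0 (hRw.trans hRR') (c₃ / (2 * 2 ^ S.m) / (R : ℝ) ^ (S.m * s)) (by positivity)
  rw [← hw] at hx
  rw [← hw]
  have hT0 : 0 < T := by linarith
  obtain ⟨x₁, hx₁⟩ := eventually_atTop.1 hx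
  -- thresholds
  have hlog : Tendsto (fun X : ℕ => Real.log (X : ℝ)) atTop atTop := Real.tendsto_log_atTop.comp tendsto_natCast_atTop_atTop
  have hpow : ∀ (A : ℕ) (κ : ℝ), 0 < κ → ∀ᶠ X : ℕ in atTop, Real.log (X : ℝ) ^ A ≤ κ * X := by
    intro A κ hκ
    have h1 := (Real.isLittleO_pow_log_id_atTop (n := A)).bound hκ
    filter_upwards [tendsto_natCast_atTop_atTop.eventually h1, hlog.eventually_ge_atTop 0] with X h2 h3
    rw [Real.norm_of_nonneg (pow_nonneg h3 _)] at h2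
    rw [id, Real.norm_of_nonneg (Nat.cast_nonneg _)] at h2
    exact h2
  obtain ⟨E₁, hE₁⟩ : ∃ E₁ : ℕ, E₁ = A * (k + 2) + 2 * w + (k + 1) := ⟨_, rfl⟩
  obtain ⟨κ₁, hκ₁⟩ : ∃ κ₁ : ℝ, κ₁ = δ / (2 * (C₂ * (C + 1) ^ (k + 1))) := ⟨_, rfl⟩
  have hC₂0 : (0 : ℝ) < C₂ := by
    have : 0 < C₂ := by omega
    exact_mod_cast this
  have hC0 : (0 : ℝ) ≤ C := Nat.cast_nonneg _
  have hκ₁0 : 0 < κ₁ := by rw [hκ₁]; positivity
  obtain ⟨X1, hX1⟩ := eventually_atTop.1 ((hpow (A + 1) (1 / 2) (by norm_num)).and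
    ((hpow (2 * w) (1 / (2 * T) ^ 2) (by positivity)).and ((hlog.eventually_ge_atTop ((C : ℝ) * 2 ^ (A + 1))).and
    ((hlog.eventually_ge_atTop 1).and ((hlog.eventually_ge_atTop (C : ℝ)).and
    ((tendsto_natCast_atTop_atTop.eventually_ge_atTop ((|x₁| + 1) ^ 2)).and (hpow (2 * E₁) (κ₁ ^ 2) (by positivity))))))))
  obtain ⟨c₅, hc₅⟩ : ∃ c₅ : ℝ, c₅ = c₃ / (2 * 2 ^ w) := ⟨_, rfl⟩
  have hc₅0 : 0 < c₅ := by rw [hc₅]; positivity
  obtain ⟨G, hG⟩ : ∃ G : ℝ, G = (S.L : ℝ) * r * (2 * S.m) * (2 * S.m + 2) ^ S.m + 1 := ⟨_, rfl⟩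
  have hG0 : 0 < G := by rw [hG]; positivity
  obtain ⟨d, hd⟩ : ∃ d : ℝ, d = c₅ * δ / (4 * T * (R : ℝ) ^ S.m * G) := ⟨_, rfl⟩
  have hd0 : 0 < d := by rw [hd]; positivity
  refine ⟨d, X1 + 3, hd0, fun χ X z b hXX hz hzA hbA => ?_⟩
  obtain ⟨hX2, hX3, hX4, hX5, hX6, hX7, hX8⟩ := hX1 X (by omega)
  have hX0 : (0 : ℝ) < X := by
    have : 0 < X := by omega
    exact_mod_cast this
  have hl0 : 0 < Real.log (X : ℝ) := by linarith
  have hz1 : 1 ≤ z := by omega
  have hz0 : (0 : ℝ) < z := by exact_mod_cast hz1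
  obtain ⟨Y, hY⟩ : ∃ Y : ℕ, Y = K * (Cz * z) := ⟨_, rfl⟩
  have hzY : z ≤ Y := by
    rw [hY, ← Nat.mul_assoc]
    exact Nat.le_mul_of_pos_left z (Nat.mul_pos hK0 hCz1)
  have hY1 : 1 ≤ Y := hz1.trans hzY
  have hY1r : (1 : ℝ) ≤ Y := by exact_mod_cast hY1
  obtain ⟨L, hL⟩ : ∃ L : ℕ, L = R * Y := ⟨_, rfl⟩
  have hLr : (L : ℝ) = R * Y := by rw [hL]; push_cast; rfl
  have hYL' : Y ≤ L := by
    rw [hL]
    exact Nat.le_mul_of_pos_left Y hR
  have hYL : (Y : ℝ) ≤ L := by exact_mod_cast hYL'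
  have hzL : (z : ℝ) ≤ L := by exact_mod_cast hzY.trans hYL'
  have hL1 : (1 : ℝ) ≤ L := by linarith
  have hL0 : (0 : ℝ) < L := by linarith
  have hLH : H0 ≤ L := by
    have h1 : ⌈H0⌉₊ ≤ z := by omega
    have h2 : (⌈H0⌉₊ : ℝ) ≤ z := by exact_mod_cast h1
    linarith [Nat.le_ceil H0]
  -- the scale
  obtain ⟨μ, hμ⟩ : ∃ μ : ℝ, μ = min 1 (L / Real.log X) := ⟨_, rfl⟩
  have hμ0 : 0 < μ := by rw [hμ]; exact lt_min one_pos (by positivity)
  have hμ1 : μ ≤ 1 := by rw [hμ]; exact min_le_left _ _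
  have hμl : 1 / Real.log X ≤ μ := by
    rw [hμ]
    refine le_min ?_ ?_
    · rw [div_le_one hl0]
      exact hX5
    · exact div_le_div_of_nonneg_right hL1 hl0.le
  obtain ⟨x, hxd⟩ : ∃ x : ℝ, x = (X : ℝ) * μ ^ w / (2 * T) := ⟨_, rfl⟩
  have hx0 : 0 < x := by rw [hxd]; positivity
  have hxsq : Real.sqrt X ≤ x := by
    have h1 : 2 * T * Real.log X ^ w ≤ Real.sqrt X := by
      refine Real.le_sqrt_of_sq_le ?_
      rw [mul_pow, ← pow_mul, mul_comm w 2]
      have h2 := mul_le_mul_of_nonneg_left hX3 (by positivity : (0 : ℝ) ≤ (2 * T) ^ 2)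
      refine h2.trans (le_of_eq ?_)
      field_simp
    have h2 : (1 / Real.log X) ^ w ≤ μ ^ w := pow_le_pow_left₀ (by positivity) hμl w
    have hlw : 0 < Real.log (X : ℝ) ^ w := by positivity
    rw [hxd, le_div_iff₀ (by positivity)]
    have h3 : Real.sqrt X * (2 * T) * Real.log X ^ w ≤ X := by
      have h4 := mul_le_mul_of_nonneg_left h1 (Real.sqrt_nonneg X)
      rw [Real.mul_self_sqrt hX0.le] at h4
      refine le_trans (le_of_eq ?_) h4
      ring
    calc Real.sqrt X * (2 * T) = Real.sqrt X * (2 * T) * Real.log X ^ w * (1 / Real.log X) ^ w := by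
          rw [div_pow, one_pow]
          field_simp
      _ ≤ X * (1 / Real.log X) ^ w := mul_le_mul_of_nonneg_right h3 (by positivity)
      _ ≤ X * μ ^ w := mul_le_mul_of_nonneg_left h2 hX0.le
  have hxx₁ : x₁ ≤ x := by
    refine le_trans ?_ hxsq
    have h1 : |x₁| + 1 ≤ Real.sqrt X := by
      refine Real.le_sqrt_of_sq_le ?_
      exact hX7
    linarith [le_abs_self x₁]
  have hlxX : Real.log x ≤ Real.log X := by
    refine Real.log_le_log hx0 ?_
    rw [hxd, div_le_iff₀ (by positivity)]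
    have h1 : μ ^ w ≤ 1 := pow_le_one₀ hμ0.le hμ1
    have h2 : (X : ℝ) * μ ^ w ≤ X * 1 := mul_le_mul_of_nonneg_left h1 hX0.le
    have h3 : (X : ℝ) * 1 ≤ X * (2 * T) := mul_le_mul_of_nonneg_left (by linarith) hX0.le
    exact h2.trans h3
  have hlx : Real.log X / 2 ≤ Real.log x := by
    have h1 := Real.log_le_log (Real.sqrt_pos.2 hX0) hxsq
    rwa [Real.log_sqrt hX0.le] at h1
  have hlx0 : 0 < Real.log x := by linarith
  have hsx := hx₁ x hxx₁
  -- the bad set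
  by_contra hcon
  rw [not_le] at hcon
  obtain ⟨E, hE⟩ : ∃ E : Finset (Fin k → ℤ), E = (Fintype.piFinset (fun j : Fin k => Ioc (b j) (b j + z))).filter
      (fun a => ¬ ∃ I : Finset (Fin n), I.Nonempty ∧
        ∀ J : Finset (Fin (k + 1)), ∃ q : Fin r, d * min 1 (z / Real.log X) ^ (3 * w) * X ≤
          Real.log X ^ (k + 1) *
            ({t : ℕ | t ≤ X ∧ BoxPat W s₀ χ q N (J.image (rws M)) (P * W * ∑ i ∈ I, c i) a t}.ncard : ℝ)) := ⟨_, rfl⟩
  rw [← hE] at hcon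
  obtain ⟨ν, hν⟩ : ∃ ν : ℝ, ν = (min 1 ((z : ℝ) / Real.log X)) ^ (3 * w) := ⟨_, rfl⟩
  have hν0 : 0 ≤ ν := by
    rw [hν]
    exact pow_nonneg (le_min zero_le_one (by positivity)) _
  have hνμ : ν ≤ μ ^ (3 * w) := by
    rw [hν, hμ]
    refine pow_le_pow_left₀ (le_min zero_le_one (by positivity)) (min_le_min le_rfl ?_) _
    exact div_le_div_of_nonneg_right hzL hl0.le
  -- a bad subset for each multiplier
  have hch : ∀ (a : Fin k → ℤ) (I : Finset (Fin n)), ∃ J : Finset (Fin (k + 1)), a ∈ E → I.Nonempty →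
      ∀ q : Fin r, Real.log X ^ (k + 1) *
        ({t : ℕ | t ≤ X ∧ BoxPat W s₀ χ q N (J.image (rws M)) (P * W * ∑ i ∈ I, c i) a t}.ncard : ℝ) < d * ν * X := by
    intro a I
    by_cases ha : a ∈ E
    · by_cases hI : I.Nonempty
      · have h1 := ha
        rw [hE, mem_filter] at h1
        have h2 := h1.2
        push Not at h2
        obtain ⟨J, hJ⟩ := h2 I hI
        rw [← hν] at hJ
        exact ⟨J, fun _ _ q => hJ q⟩
      · exact ⟨∅, fun _ h => absurd h hI⟩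
    · exact ⟨∅, fun h => absurd h ha⟩
  choose φ hφ using hch
  obtain ⟨f, -, hf⟩ := Finset.exists_le_card_fiber_of_nsmul_le_card_of_maps_to (s := E)
    (t := (univ : Finset (Finset (Fin n) → Finset (Fin (k + 1))))) (f := φ) (b := ε / Nf * (z : ℝ) ^ k)
    (fun _ _ => mem_univ _) univ_nonempty (by
      rw [card_univ, ← hNf, nsmul_eq_mul]
      refine le_trans (le_of_eq ?_) hcon.le
      field_simp)
  obtain ⟨Ef, hEf⟩ : ∃ Ef : Finset (Fin k → ℤ), Ef = E.filter (fun a => φ a = f) := ⟨_, rfl⟩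
  rw [← hEf] at hf
  have hEfcube : ∀ a ∈ Ef, ∀ i, b i < a i ∧ a i ≤ b i + z := by
    intro a ha i
    rw [hEf, mem_filter, hE, mem_filter, Fintype.mem_piFinset] at ha
    exact mem_Ioc.1 (ha.1.1 i)
  have hEc2 : (Ef.card : ℝ) ≤ (z : ℝ) ^ k := by
    have h1 : Ef.card ≤ z ^ k := by
      rw [hEf, hE]
      refine (card_filter_le _ _).trans ((card_filter_le _ _).trans (le_of_eq ?_))
      rw [Fintype.card_piFinset]
      have h2 : ∀ j ∈ (univ : Finset (Fin k)), (Ioc (b j) (b j + z)).card = z := by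
        intro j _
        rw [Int.card_Ioc]
        omega
      rw [prod_congr rfl h2, prod_const, card_univ, Fintype.card_fin]
    exact_mod_cast h1
  -- the bounds
  obtain ⟨β, hβ⟩ : ∃ β : ℕ, β = ⌊Real.log (X : ℝ) ^ A⌋₊ := ⟨_, rfl⟩
  have hβA : (β : ℝ) ≤ Real.log X ^ A := by rw [hβ]; exact Nat.floor_le (by positivity)
  have hzβ : z ≤ β := by
    rw [hβ]
    exact Nat.le_floor hzA
  have hβ1 : 1 ≤ β := by omega
  have hβ1r : (1 : ℝ) ≤ β := by exact_mod_cast hβ1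
  have hbβ : ∀ j, |b j| ≤ (β : ℤ) := by
    intro j
    have h1 : ((b j).natAbs : ℝ) ≤ Real.log X ^ A := by
      rw [Nat.cast_natAbs, Int.cast_abs]
      exact hbA j
    have h2 : (b j).natAbs ≤ β := by
      rw [hβ]
      exact Nat.le_floor h1
    rw [Int.abs_eq_natAbs]
    exact_mod_cast h2
  obtain ⟨θ, hθ⟩ : ∃ θ : Fin S.m → ℤ, θ = fun v => ∑ i, (S.c v i : ℤ) * M.mulVec b i := ⟨_, rfl⟩
  have hθb : ∀ v : Fin S.m, |θ v| ≤ ((k * S.n * Cz * β : ℕ) : ℤ) := by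
    intro v
    rw [hθ]
    refine (abs_sum_le_sum_abs _ _).trans ?_
    have h1 : ∀ i ∈ (univ : Finset (Fin k)), |(S.c v i : ℤ) * M.mulVec b i| ≤ ((S.n * (Cz * β) : ℕ) : ℤ) := by
      intro i _
      rw [abs_mul, Nat.abs_cast]
      have h2 := mulVec_le M b β hbβ i
      rw [← hCz] at h2
      push_cast
      push_cast at h2
      exact mul_le_mul (by exact_mod_cast S.cle v i) h2 (abs_nonneg _) (Nat.cast_nonneg _)
    refine (sum_le_card_nsmul _ _ _ h1).trans (le_of_eq ?_)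
    rw [card_univ, Fintype.card_fin, nsmul_eq_mul]
    push_cast
    ring
  obtain ⟨Mb, hMb⟩ : ∃ Mb : ℤ, Mb = ((k * S.n * Cz * β : ℕ) : ℤ) := ⟨_, rfl⟩
  have hθM : ∀ v, 0 ≤ θ v + Mb := by
    intro v
    have h1 := abs_le.1 (hθb v)
    rw [hMb]
    linarith [h1.1]
  obtain ⟨τ₀, hτ₀d⟩ : ∃ τ₀ : Fin S.m → ℕ, τ₀ = fun v => ρ + R * (θ v + Mb).toNat := ⟨_, rfl⟩
  have hτ₀z : ∀ v, (τ₀ v : ℤ) = ρ + R * (θ v + Mb) := by
    intro v
    rw [hτ₀d]
    push_cast
    rw [Int.toNat_of_nonneg (hθM v)]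
  obtain ⟨N₁, hN₁, hRN₁, 𝒰, h𝒰c, h𝒰⟩ := hconf z (by omega) b Ef hEfcube hf τ₀ Mb (fun v => by rw [hτ₀z, hθ])
  rw [← hY, ← hc₃] at h𝒰c
  rw [← hY] at h𝒰
  obtain ⟨τ, hτd⟩ : ∃ τ : Fin S.m → ℕ, τ = fun v => N₁ + τ₀ v := ⟨_, rfl⟩
  have hτL : ∀ v, τ v + L ≤ C * β := by
    intro v
    have h1 : (θ v + Mb).toNat ≤ 2 * (k * S.n * Cz) * β := by
      have h2 := abs_le.1 (hθb v)
      have h3 : θ v + Mb ≤ ((2 * (k * S.n * Cz) * β : ℕ) : ℤ) := by
        rw [hMb]
        have h4 : ((2 * (k * S.n * Cz) * β : ℕ) : ℤ) = ((k * S.n * Cz * β : ℕ) : ℤ) + ((k * S.n * Cz * β : ℕ) : ℤ) := by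
          push_cast
          ring
        rw [h4]
        linarith [h2.2]
      omega
    rw [hτd, hτ₀d, hC, hL, hY]
    calc N₁ + (ρ + R * (θ v + Mb).toNat) + R * (K * (Cz * z)) ≤
          R' * β + (ρ * β + R * (2 * (k * S.n * Cz) * β)) + R * (K * (Cz * β)) :=
          Nat.add_le_add (Nat.add_le_add (hN₁.le.trans (Nat.le_mul_of_pos_right R' hβ1))
            (Nat.add_le_add (Nat.le_mul_of_pos_right ρ hβ1) (Nat.mul_le_mul_left R h1)))
            (Nat.mul_le_mul_left R (Nat.mul_le_mul_left K (Nat.mul_le_mul_left Cz hzβ)))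
      _ = (R' + ρ + R * (K * Cz + 2 * (k * S.n * Cz))) * β := by ring
  have hCβ : (C : ℝ) * β ≤ Real.log x ^ (A + 1) := by
    have h1 : (Real.log X / 2) ^ (A + 1) ≤ Real.log x ^ (A + 1) := pow_le_pow_left₀ (by positivity) hlx _
    refine le_trans ?_ h1
    rw [div_pow, le_div_iff₀ (by positivity), pow_succ (Real.log (X : ℝ))]
    calc (C : ℝ) * β * 2 ^ (A + 1) = β * (C * 2 ^ (A + 1)) := by ring
      _ ≤ Real.log X ^ A * Real.log X := mul_le_mul hβA hX4 (by positivity) (by positivity)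
  have hCX : (C : ℝ) * β ≤ 1 / 2 * X := by
    refine le_trans ?_ hX2
    rw [pow_succ]
    calc (C : ℝ) * β = β * C := by ring
      _ ≤ Real.log X ^ A * Real.log X := mul_le_mul hβA hX6 (by positivity) (by positivity)
  have hτLr : ∀ v, (τ v : ℝ) + L ≤ C * β := fun v => by exact_mod_cast hτL v
  -- the windows
  obtain ⟨Z, hZ⟩ : ∃ Z : Finset ℕ, Z = (univ : Finset (Fin S.m)).biUnion (fun i => Icc (τ i) (τ i + L)) := ⟨_, rfl⟩
  have hmemZ : ∀ y, y ∈ Z ↔ ∃ i, τ i ≤ y ∧ y ≤ τ i + L := by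
    intro y
    rw [hZ, mem_biUnion]
    constructor
    · rintro ⟨i, -, hi⟩
      exact ⟨i, mem_Icc.1 hi⟩
    · rintro ⟨i, hi⟩
      exact ⟨i, mem_univ _, mem_Icc.2 hi⟩
  have hZc : (Z.card : ℝ) ≤ 2 * S.m * L := by
    have h1 : Z.card ≤ S.m * (L + 1) := by
      rw [hZ]
      refine card_biUnion_le.trans ?_
      refine (sum_le_card_nsmul _ _ (L + 1) fun i _ => ?_).trans (le_of_eq ?_)
      · rw [Nat.card_Icc]
        omega
      · rw [card_univ, Fintype.card_fin, smul_eq_mul]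
    have h2 : (Z.card : ℝ) ≤ S.m * (L + 1) := by exact_mod_cast h1
    refine h2.trans ?_
    have h3 : (S.m : ℝ) * (L + 1) ≤ S.m * (2 * L) := mul_le_mul_of_nonneg_left (by linarith) hm0.le
    linarith
  have hZβ : (Z.card : ℝ) ≤ (C + 1) * β := by
    have h1 : Z ⊆ range (C * β + 1) := by
      intro y hy
      obtain ⟨i, -, hi⟩ := (hmemZ y).1 hy
      rw [mem_range]
      have := hτL i
      omega
    have h2 := card_le_card h1
    rw [card_range] at h2
    have h3 : (Z.card : ℝ) ≤ C * β + 1 := by exact_mod_cast h2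
    linarith
  have hZX : ∀ N' ∈ range (⌊(X : ℝ) / 2⌋₊ + 1), ∀ y ∈ Z, N' + y ≤ X := by
    intro N' hN y hy
    rw [mem_range, Nat.lt_succ_iff] at hN
    have h1 : (N' : ℝ) ≤ (X : ℝ) / 2 := (Nat.le_floor_iff (by positivity)).1 hN
    obtain ⟨i, -, hi⟩ := (hmemZ y).1 hy
    have h2 : (y : ℝ) ≤ τ i + L := by exact_mod_cast hi
    have h3 := hτLr i
    have h4 : ((N' + y : ℕ) : ℝ) ≤ X := by
      push_cast
      linarith
    exact_mod_cast h4
  -- the sites
  obtain ⟨v, hv⟩ : ∃ v : (Fin S.m × Fin (s + 1) → ℕ) → Fin S.m × Fin (s + 1) → ℕ, v = fun u p => τ₀ p.1 + R * u p := ⟨_, rfl⟩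
  have hvwin : ∀ u ∈ 𝒰, ∀ p, τ p.1 ≤ N₁ + v u p ∧ N₁ + v u p ≤ τ p.1 + L := by
    intro u hu p
    rw [hτd, hv, hL]
    have h1 := Nat.mul_le_mul_left R ((h𝒰 u hu).1 p)
    dsimp only
    omega
  have hvZ : ∀ u ∈ 𝒰, ∀ p, N₁ + v u p ∈ Z := fun u hu p => (hmemZ _).2 ⟨_, hvwin u hu p⟩
  have hvρ : ∀ u p, v u p ≡ ρ [MOD R] := by
    intro u p
    rw [hv, hτ₀d]
    show (ρ + R * (θ p.1 + Mb).toNat + R * u p) % R = ρ % R
    rw [Nat.add_mul_mod_self_left, Nat.add_mul_mod_self_left]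
  -- the fibres
  obtain ⟨lst, hlst⟩ : ∃ lst : (Fin S.m × Fin (s + 1) → ℕ) → Fin S.m → ℕ, lst = fun u d => u (d, Fin.last s) := ⟨_, rfl⟩
  obtain ⟨𝒲₀, h𝒲₀⟩ : ∃ 𝒲₀ : Finset (Fin S.m → ℕ), 𝒲₀ = Fintype.piFinset (fun _ : Fin S.m => range (Y + 1)) := ⟨_, rfl⟩
  have hrestr : ∀ u u' : Fin S.m × Fin (s + 1) → ℕ, lst u = lst u' →
      (fun p : Fin S.m × Fin s => u (p.1, p.2.castSucc)) = (fun p : Fin S.m × Fin s => u' (p.1, p.2.castSucc)) → u = u' := by
    intro u u' h1 h2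
    funext p
    obtain ⟨d, i⟩ := p
    refine Fin.lastCases ?_ (fun i => ?_) i
    · rw [hlst] at h1
      exact congrFun h1 d
    · exact congrFun h2 (d, i)
  have hfib := many_fibers 𝒰 lst 𝒲₀ (fun u hu => by
      rw [h𝒲₀, Fintype.mem_piFinset]
      intro d
      rw [mem_range, Nat.lt_succ_iff, hlst]
      exact (h𝒰 u hu).1 _) ((2 * (Y : ℝ)) ^ w) (c₃ * (Y : ℝ) ^ (S.m * (s + 1))) ((2 * (Y : ℝ)) ^ S.m) (by
      intro w' _
      have h1 : (𝒰.filter (fun u => lst u = w')).card ≤ (Fintype.piFinset (fun _ : Fin S.m × Fin s => range (Y + 1))).card := by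
        refine card_le_card_of_injOn (fun u p => u (p.1, p.2.castSucc)) ?_ ?_
        · intro u hu
          have hu' := (mem_filter.1 (mem_coe.1 hu)).1
          rw [mem_coe, Fintype.mem_piFinset]
          intro p
          rw [mem_range, Nat.lt_succ_iff]
          exact (h𝒰 u hu').1 _
        · intro u hu u' hu' h
          have h2 := (mem_filter.1 (mem_coe.1 hu)).2
          have h3 := (mem_filter.1 (mem_coe.1 hu')).2
          exact hrestr u u' (h2.trans h3.symm) h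
      rw [Fintype.card_piFinset] at h1
      rw [prod_const, card_range, card_univ, Fintype.card_prod, Fintype.card_fin, Fintype.card_fin, ← hw] at h1
      have h2 : ((𝒰.filter (fun u => lst u = w')).card : ℝ) ≤ ((Y : ℝ) + 1) ^ w := by exact_mod_cast h1
      refine h2.trans (pow_le_pow_left₀ (by positivity) ?_ _)
      linarith) (by
      rw [h𝒲₀, Fintype.card_piFinset, prod_const, card_range, card_univ, Fintype.card_fin]
      push_cast
      refine pow_le_pow_left₀ (by positivity) ?_ _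
      linarith) (by positivity) (by positivity) h𝒰c
  obtain ⟨𝒲, h𝒲⟩ : ∃ 𝒲 : Finset (Fin S.m → ℕ), 𝒲 = 𝒲₀.filter (fun w' =>
    c₃ * (Y : ℝ) ^ (S.m * (s + 1)) / (2 * (2 * (Y : ℝ)) ^ S.m) ≤ ((𝒰.filter (fun u => lst u = w')).card : ℝ)) := ⟨_, rfl⟩
  rw [← h𝒲] at hfib
  have hYw : (0 : ℝ) < (Y : ℝ) ^ w := by positivity
  have hYexp : (Y : ℝ) ^ (S.m * (s + 1)) = (Y : ℝ) ^ w * (Y : ℝ) ^ S.m := by
    rw [hw, ← pow_add]
    congr 1
  have h𝒲c : c₅ * (Y : ℝ) ^ S.m ≤ 𝒲.card := by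
    rw [hYexp, mul_pow] at hfib
    have h1 : c₅ * (Y : ℝ) ^ S.m * (2 ^ w * (Y : ℝ) ^ w) ≤ 𝒲.card * (2 ^ w * (Y : ℝ) ^ w) := by
      refine le_trans (le_of_eq ?_) hfib
      rw [hc₅]
      field_simp
    exact le_of_mul_le_mul_right h1 (by positivity)
  have h𝒲c0 : (0 : ℝ) < 𝒲.card := lt_of_lt_of_le (by positivity) h𝒲c
  -- the indices
  obtain ⟨Jf, hJf⟩ : ∃ Jf : Fin S.L → Finset (Fin (k + 1)), Jf = fun a => f (Im a) := ⟨_, rfl⟩
  obtain ⟨I₀, hI₀⟩ : ∃ I₀ : Finset (Fin S.L × (Fin k → ℤ) × Fin r), I₀ =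
    (univ : Finset (Fin S.L)) ×ˢ (Ef ×ˢ (univ : Finset (Fin r))) := ⟨_, rfl⟩
  obtain ⟨Gs, hGs⟩ : ∃ Gs : Finset (Fin S.m → ℕ), Gs = Fintype.piFinset (fun _ : Fin S.m => Z ∪ range (Y + 1)) := ⟨_, rfl⟩
  obtain ⟨Tt, hTt⟩ : ∃ Tt : Fin S.L × (Fin k → ℤ) × Fin r → Set ℕ, Tt = fun i =>
    {t | BoxPat W s₀ χ i.2.2 N ((Jf i.1).image (rws M)) (R * S.μ i.1) i.2.1 t} := ⟨_, rfl⟩
  obtain ⟨Nm, hNm⟩ : ∃ Nm : ℕ, Nm = C₂ * β := ⟨_, rfl⟩
  obtain ⟨F, hF⟩ : ∃ F : (Fin S.m → ℕ) → ℕ → Finset (Fin (k + 1) → ℕ), F = fun w' N' =>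
    (Fintype.piFinset (fun _ : Fin (k + 1) => Z)).filter (fun y => Function.Injective y ∧ (∀ j, (N' + y j).Prime) ∧
      (Nm ≤ N' → ∃ i ∈ I₀, ∃ y₀ ∈ Z, ∃ g ∈ Gs, N' + y₀ ∈ Tt i ∧ Rl S R M Jf τ i y₀ g w' y)) := ⟨_, rfl⟩
  have htt : μ ≤ min 1 (L / Real.log x) := by
    rw [hμ]
    exact min_le_min le_rfl (div_le_div_of_nonneg_left hL0.le hlx0 hlxX)
  -- the sieve
  have hcount : ∀ w' ∈ 𝒲, δ * (min 1 (L / Real.log x)) ^ (2 * w) * (L / Real.log x) ^ (k + 1) * x ≤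
      ∑ N' ∈ range (⌊(X : ℝ) / 2⌋₊ + 1), ((F w' N').card : ℝ) := by
    intro w' hw'
    rw [h𝒲, mem_filter] at hw'
    obtain ⟨𝓗, h𝓗⟩ : ∃ 𝓗 : Finset (Fin S.m × Fin s → ℕ), 𝓗 = (𝒰.filter (fun u => lst u = w')).image
      (fun u p => N₁ + v u (p.1, p.2.castSucc)) := ⟨_, rfl⟩
    have h𝓗c : 𝓗.card = (𝒰.filter (fun u => lst u = w')).card := by
      rw [h𝓗]
      refine card_image_of_injOn ?_
      intro u hu u' hu' h
      have h2 := (mem_filter.1 (mem_coe.1 hu)).2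
      have h3 := (mem_filter.1 (mem_coe.1 hu')).2
      refine hrestr u u' (h2.trans h3.symm) ?_
      funext p
      have h4 : N₁ + v u (p.1, p.2.castSucc) = N₁ + v u' (p.1, p.2.castSucc) := congrFun h p
      rw [hv] at h4
      exact Nat.eq_of_mul_eq_mul_left hR (Nat.add_left_cancel (Nat.add_left_cancel h4))
    refine hsx L hLH (le_trans (by linarith [hτLr ⟨0, S.hm⟩, Nat.cast_nonneg (α := ℝ) (τ ⟨0, S.hm⟩)]) hCβ) τ
      (fun i => le_trans (by linarith [hτLr i]) hCβ) 𝓗 ?_ ?_ (F w') ?_ ?_ ((X : ℝ) / 2) ?_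
    · intro v' hv'
      rw [h𝓗, mem_image] at hv'
      obtain ⟨u, hu, rfl⟩ := hv'
      have hu1 := (mem_filter.1 hu).1
      refine ⟨fun p p' hpp => ?_, fun p => hvwin u hu1 (p.1, p.2.castSucc), fun p => ?_⟩
      · have h4 : N₁ + v u (p.1, p.2.castSucc) = N₁ + v u (p'.1, p'.2.castSucc) := hpp
        rw [hv] at h4
        have h5 := (h𝒰 u hu1).2.1 (Nat.add_left_cancel h4)
        rw [Prod.mk.injEq] at h5
        exact Prod.ext h5.1 (Fin.castSucc_injective _ h5.2)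
      · have h4 := (h𝒰 u hu1).2.2.1 p
        rw [hv]
        exact h4
    · rw [h𝓗c]
      refine le_trans (le_of_eq ?_) hw'.2
      rw [hYexp, hLr, mul_pow (R : ℝ), mul_pow (2 : ℝ)]
      field_simp
    · intro N' hRN' v' hv' hwc
      rw [h𝓗, mem_image] at hv'
      obtain ⟨u, hu, rfl⟩ := hv'
      obtain ⟨hu1, hu2⟩ := mem_filter.1 hu
      obtain ⟨q, a, t, hat⟩ := pick hr S χ N' (fun p => N₁ + v u (p.1, p.2.castSucc)) hwc
      refine ⟨fun j => N₁ + v u (S.e a j, (t j).castSucc), ?_, fun j => ⟨(S.e a j, t j), rfl⟩⟩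
      rw [hF]
      dsimp only
      rw [mem_filter, Fintype.mem_piFinset]
      refine ⟨fun j => hvZ u hu1 _, fun j j' hjj => ?_, fun j => (hat j).1, fun hN' => ?_⟩
      · have h4 : N₁ + v u (S.e a j, (t j).castSucc) = N₁ + v u (S.e a j', (t j').castSucc) := hjj
        rw [hv] at h4
        have h5 := (h𝒰 u hu1).2.1 (Nat.add_left_cancel h4)
        rw [Prod.mk.injEq] at h5
        exact S.inj a h5.1
      · obtain ⟨t', ht'⟩ : ∃ t' : Fin (k + 1) → Fin (s + 1), t' = fun j => if j ∈ Jf a then (t j).castSucc else Fin.last s :=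
          ⟨_, rfl⟩
        obtain ⟨a₁, ha₁, hda, hxa⟩ := (h𝒰 u hu1).2.2.2.1 a t'
        have hvd : ∀ p, τ₀ p.1 + R * u p = v u p := by
          intro p
          rw [hv]
        have hda' : ∀ i : Fin k, (v u (S.e a i.succ, t' i.succ) : ℤ) - (v u (S.e a 0, t' 0) : ℤ) =
            ((R * S.μ a : ℕ) : ℤ) * M.mulVec a₁ i := by
          intro i
          have h1 := hda i
          rw [hvd (S.e a i.succ, t' i.succ), hvd (S.e a 0, t' 0)] at h1
          exact h1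
        have hrow := row_pos M a₁ ((R * S.μ a : ℕ) : ℤ) (fun j => (v u (S.e a j, t' j) : ℤ)) hda'
        refine ⟨(a, a₁, q), ?_, N₁ + v u (S.e a 0, t' 0), hvZ u hu1 _,
          fun d => if ∃ j, j ∉ Jf a ∧ S.e a j = d then (if h : ∃ j, j ∉ Jf a ∧ S.e a j = d then
            N₁ + v u (S.e a h.choose, (t h.choose).castSucc) else 0) else w' d, ?_, ?_, ?_⟩
        · rw [hI₀]
          exact mem_product.2 ⟨mem_univ _, mem_product.2 ⟨ha₁, mem_univ _⟩⟩
        · rw [hGs, Fintype.mem_piFinset]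
          intro d
          by_cases h : ∃ j, j ∉ Jf a ∧ S.e a j = d
          · rw [if_pos h, dif_pos h]
            exact mem_union_left _ (hvZ u hu1 _)
          · rw [if_neg h]
            refine mem_union_right _ ?_
            have h1 := hw'.1
            rw [h𝒲₀, Fintype.mem_piFinset] at h1
            exact h1 d
        · rw [hTt]
          show BoxPat W s₀ χ q N ((Jf a).image (rws M)) (R * S.μ a) a₁ (N' + (N₁ + v u (S.e a 0, t' 0)))
          have hN'R : R' < N' := by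
            have h1 : R' < Nm := by
              rw [hNm]
              calc R' < C₂ := by omega
                _ ≤ C₂ * β := Nat.le_mul_of_pos_right C₂ hβ1
            omega
          refine pat_of_conf S s N W s₀ R R' N₁ M χ q (v u) N' (Jf a) a t t' ht' a₁ hda' hR'0 ?_ ?_ hRN' hN'R ?_ ?_
          · intro x' hx'
            obtain ⟨l, hl1, hl2, hl3⟩ := hxa x' hx'
            refine ⟨l, hl1, hl2, ?_⟩
            rw [hvd (S.e a 0, t' 0)] at hl3
            exact hl3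
          · intro d'
            obtain ⟨l, hl1, hl2, hl3⟩ := (h𝒰 u hu1).2.2.2.2 d'
            refine ⟨l, hl1, hl2, ?_⟩
            rw [hvd (d', Fin.last s)] at hl3
            exact hl3
          · intro x' hx'
            have h1 : |((R * S.μ a : ℕ) : ℤ) * ∑ i, x' i * a₁ i| ≤ ((R * S.n * (k * (N * 2)) * β : ℕ) : ℤ) := by
              have ha2 : ∀ i, |a₁ i| ≤ 2 * (β : ℤ) := by
                intro i
                have h2 := hEfcube a₁ ha₁ i
                have h3 := abs_le.1 (hbβ i)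
                have h4 : (z : ℤ) ≤ β := by exact_mod_cast hzβ
                rw [abs_le]
                constructor <;> linarith [h2.1, h2.2, h3.1, h3.2]
              have h2 : |∑ i, x' i * a₁ i| ≤ k * (N * (2 * (β : ℤ))) := by
                refine (abs_sum_le_sum_abs _ _).trans ?_
                have h3 : ∀ i ∈ (univ : Finset (Fin k)), |x' i * a₁ i| ≤ N * (2 * (β : ℤ)) := by
                  intro i _
                  rw [abs_mul]
                  exact mul_le_mul (hx' i) (ha2 i) (abs_nonneg _) (Nat.cast_nonneg _)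
                refine (sum_le_card_nsmul _ _ _ h3).trans (le_of_eq ?_)
                rw [card_univ, Fintype.card_fin, nsmul_eq_mul]
              rw [abs_mul, Nat.abs_cast]
              have h3 : ((R * S.μ a : ℕ) : ℤ) ≤ ((R * S.n : ℕ) : ℤ) := by
                exact_mod_cast Nat.mul_le_mul_left R (S.μle a)
              calc ((R * S.μ a : ℕ) : ℤ) * |∑ i, x' i * a₁ i| ≤ ((R * S.n : ℕ) : ℤ) * (k * (N * (2 * (β : ℤ)))) :=
                    mul_le_mul h3 h2 (abs_nonneg _) (Nat.cast_nonneg _)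
                _ = ((R * S.n * (k * (N * 2)) * β : ℕ) : ℤ) := by
                    push_cast
                    ring
            have h2 := (abs_le.1 h1).1
            have h3 : (Nm : ℤ) ≤ N' := by exact_mod_cast hN'
            have h4 : (Nm : ℤ) = (C : ℤ) * β + ((R * S.n * (k * (N * 2)) * β : ℕ) : ℤ) + R' * β + β := by
              rw [hNm, hC₂]
              push_cast
              ring
            have h5 : (0 : ℤ) ≤ (C : ℤ) * β := by positivity
            have h6 : (R' : ℤ) ≤ R' * β := by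
              have : (1 : ℤ) ≤ β := by exact_mod_cast hβ1
              exact le_mul_of_one_le_right (Nat.cast_nonneg _) this
            have h7 : (1 : ℤ) ≤ β := by exact_mod_cast hβ1
            have h8 : (0 : ℤ) ≤ (N₁ : ℤ) + (v u (S.e a 0, t' 0) : ℤ) := by positivity
            linarith
          · intro j
            refine ⟨(hat j).1, (hat j).2, ?_⟩
            have h4 : N' ≡ 0 [MOD W] := Nat.modEq_zero_iff_dvd.2 ((hWR.trans hRR').trans hRN')
            have h5 : N₁ ≡ 0 [MOD W] := Nat.modEq_zero_iff_dvd.2 (hWR.trans hRN₁)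
            have h6 := h4.add (h5.add ((hvρ u (S.e a j, (t j).castSucc)).of_dvd hWR))
            rw [Nat.zero_add, Nat.zero_add] at h6
            exact h6.trans hρ3
        · refine ⟨fun j hj => ?_, fun j hj => ⟨?_, ?_⟩, fun d hd' => ?_⟩
          · have h1 := hrow j
            have h2 : t' j = (t j).castSucc := by rw [ht']; exact if_pos hj
            dsimp only at h1 ⊢
            rw [h2] at h1
            push_cast
            push_cast at h1
            linarith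
          · have h1 := hrow j
            have h2 : t' j = Fin.last s := by rw [ht']; exact if_neg hj
            dsimp only at h1 ⊢
            rw [h2] at h1
            have h3 : τ (S.e a j) + R * w' (S.e a j) = N₁ + v u (S.e a j, Fin.last s) := by
              rw [hτd, hv, ← hu2, hlst]
              dsimp only
              omega
            rw [h3]
            push_cast
            push_cast at h1
            linarith
          · have hex : ∃ j', j' ∉ Jf a ∧ S.e a j' = S.e a j := ⟨j, hj, rfl⟩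
            dsimp only
            rw [if_pos hex, dif_pos hex]
            have h1 := S.inj a hex.choose_spec.2
            rw [h1]
          · dsimp only
            rw [if_neg]
            rintro ⟨j, hj, hjd⟩
            exact hd' j hj hjd
    · intro N' y hy
      rw [hF] at hy
      dsimp only at hy
      rw [mem_filter, Fintype.mem_piFinset] at hy
      exact ⟨hy.2.1, fun j => ⟨(hmemZ _).1 (hy.1 j), hy.2.2.1 j⟩⟩
    · have h1 : μ ^ w ≤ min 1 (L / Real.log x) ^ w := pow_le_pow_left₀ hμ0.le htt w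
      calc T * x = μ ^ w * (X / 2) := by
            rw [hxd]
            field_simp
        _ ≤ min 1 (L / Real.log x) ^ w * (X / 2) := mul_le_mul_of_nonneg_right h1 (by positivity)
  -- the lower bound
  obtain ⟨low, hlowd⟩ : ∃ low : ℝ, low = δ * μ ^ (2 * w) * (L / Real.log X) ^ (k + 1) * x := ⟨_, rfl⟩
  have hlow : low ≤ δ * (min 1 (L / Real.log x)) ^ (2 * w) * (L / Real.log x) ^ (k + 1) * x := by
    rw [hlowd]
    refine mul_le_mul_of_nonneg_right ?_ hx0.le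
    refine mul_le_mul (mul_le_mul_of_nonneg_left (pow_le_pow_left₀ hμ0.le htt _) hδ.le) ?_ (by positivity) ?_
    · exact pow_le_pow_left₀ (by positivity) (div_le_div_of_nonneg_left (Nat.cast_nonneg _) hlx0 hlxX) _
    · exact mul_nonneg hδ.le (pow_nonneg (hμ0.le.trans htt) _)
  -- the small N are negligible
  have hE₁' : Real.log X ^ E₁ ≤ κ₁ * Real.sqrt X := by
    have h1 : Real.log X ^ E₁ ≤ Real.sqrt (κ₁ ^ 2 * X) := by
      refine Real.le_sqrt_of_sq_le ?_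
      rw [← pow_mul, mul_comm E₁ 2]
      exact hX8
    rwa [Real.sqrt_mul (by positivity), Real.sqrt_sq hκ₁0.le] at h1
  have hsmall : (Nm : ℝ) * (Z.card : ℝ) ^ (k + 1) ≤ low / 2 := by
    have h1 : (Nm : ℝ) * (Z.card : ℝ) ^ (k + 1) ≤ C₂ * (C + 1) ^ (k + 1) * Real.log X ^ (A * (k + 2)) := by
      calc (Nm : ℝ) * (Z.card : ℝ) ^ (k + 1) ≤ (C₂ * β) * ((C + 1) * β) ^ (k + 1) := by
            rw [hNm]
            push_cast
            exact mul_le_mul_of_nonneg_left (pow_le_pow_left₀ (Nat.cast_nonneg _) hZβ _) (by positivity)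
        _ = C₂ * (C + 1) ^ (k + 1) * (β : ℝ) ^ (k + 2) := by
            rw [mul_pow]
            ring
        _ ≤ C₂ * (C + 1) ^ (k + 1) * (Real.log X ^ A) ^ (k + 2) :=
            mul_le_mul_of_nonneg_left (pow_le_pow_left₀ (Nat.cast_nonneg _) hβA _) (by positivity)
        _ = C₂ * (C + 1) ^ (k + 1) * Real.log X ^ (A * (k + 2)) := by rw [← pow_mul]
    have h2 : δ * (1 / Real.log X) ^ (2 * w) * (1 / Real.log X) ^ (k + 1) * Real.sqrt X ≤ low := by
      rw [hlowd]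
      refine mul_le_mul (mul_le_mul (mul_le_mul_of_nonneg_left (pow_le_pow_left₀ (by positivity) hμl _) hδ.le)
        (pow_le_pow_left₀ (by positivity) (div_le_div_of_nonneg_right hL1 hl0.le) _) (by positivity) (by positivity))
        hxsq (Real.sqrt_nonneg _) (by positivity)
    have h3 : C₂ * (C + 1) ^ (k + 1) * Real.log X ^ (A * (k + 2)) * Real.log X ^ (2 * w + (k + 1)) ≤ δ / 2 * Real.sqrt X := by
      calc C₂ * (C + 1) ^ (k + 1) * Real.log X ^ (A * (k + 2)) * Real.log X ^ (2 * w + (k + 1)) =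
            C₂ * (C + 1) ^ (k + 1) * Real.log X ^ E₁ := by
            rw [hE₁, mul_assoc, ← pow_add]
            congr 2
            ring
        _ ≤ C₂ * (C + 1) ^ (k + 1) * (κ₁ * Real.sqrt X) := mul_le_mul_of_nonneg_left hE₁' (by positivity)
        _ = δ / 2 * Real.sqrt X := by
            rw [hκ₁]
            field_simp
    have h4 : (0 : ℝ) < Real.log (X : ℝ) ^ (2 * w + (k + 1)) := by positivity
    have h5 : C₂ * (C + 1) ^ (k + 1) * Real.log X ^ (A * (k + 2)) ≤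
        δ * (1 / Real.log X) ^ (2 * w) * (1 / Real.log X) ^ (k + 1) * Real.sqrt X / 2 := by
      have h6 : δ * (1 / Real.log X) ^ (2 * w) * (1 / Real.log X) ^ (k + 1) * Real.sqrt X / 2 =
          δ / 2 * Real.sqrt X / Real.log X ^ (2 * w + (k + 1)) := by
        rw [div_pow, div_pow, one_pow, one_pow]
        field_simp
        ring
      rw [h6, le_div_iff₀ h4]
      exact h3
    linarith
  have hlarge : ∀ w' ∈ 𝒲, low / 2 ≤
      ∑ N' ∈ (range (⌊(X : ℝ) / 2⌋₊ + 1)).filter (fun N' => Nm ≤ N'), ((F w' N').card : ℝ) := by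
    intro w' hw'
    have h1 := hlow.trans (hcount w' hw')
    rw [← sum_filter_add_sum_filter_not (range (⌊(X : ℝ) / 2⌋₊ + 1)) (fun N' => Nm ≤ N')] at h1
    have h2 : ∑ N' ∈ (range (⌊(X : ℝ) / 2⌋₊ + 1)).filter (fun N' => ¬ Nm ≤ N'), ((F w' N').card : ℝ) ≤
        (Nm : ℝ) * (Z.card : ℝ) ^ (k + 1) := by
      have h3 : ∀ N' ∈ (range (⌊(X : ℝ) / 2⌋₊ + 1)).filter (fun N' => ¬ Nm ≤ N'), ((F w' N').card : ℝ) ≤
          (Z.card : ℝ) ^ (k + 1) := by
        intro N' _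
        have h4 : (F w' N').card ≤ Z.card ^ (k + 1) := by
          rw [hF]
          refine (card_filter_le _ _).trans (le_of_eq ?_)
          rw [Fintype.card_piFinset, prod_const, card_univ, Fintype.card_fin]
        exact_mod_cast h4
      refine (sum_le_card_nsmul _ _ _ h3).trans ?_
      rw [nsmul_eq_mul]
      refine mul_le_mul_of_nonneg_right ?_ (by positivity)
      have h4 : (range (⌊(X : ℝ) / 2⌋₊ + 1)).filter (fun N' => ¬ Nm ≤ N') ⊆ range Nm := by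
        intro N' hN'
        rw [mem_filter, not_le] at hN'
        exact mem_range.2 hN'.2
      have h5 := card_le_card h4
      rw [card_range] at h5
      exact_mod_cast h5
    linarith
  -- the upper bound
  have hub := sum_pat I₀ Z Gs X Tt (d * ν * X / Real.log X ^ (k + 1)) (by
    intro i hi
    rw [hI₀, mem_product, mem_product] at hi
    have hi2 := hi.2.1
    rw [hEf, mem_filter] at hi2
    have h1 := hφ i.2.1 (Im i.1) hi2.1 (hIm1 i.1) i.2.2
    rw [hi2.2, ← hIm2, ← hRd] at h1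
    have h2 : {t : ℕ | t ≤ X ∧ t ∈ Tt i} =
        {t : ℕ | t ≤ X ∧ BoxPat W s₀ χ i.2.2 N ((f (Im i.1)).image (rws M)) (R * S.μ i.1) i.2.1 t} := by
      rw [hTt, hJf]
      rfl
    rw [h2, le_div_iff₀ (by positivity), mul_comm]
    exact h1.le) 𝒲 ((range (⌊(X : ℝ) / 2⌋₊ + 1)).filter (fun N' => Nm ≤ N')) F
    (fun i y₀ g w' y => Rl S R M Jf τ i y₀ g w' y)
    (fun i y₀ g w' y w'' y' h h' => Rl_unique S R hR M Jf τ i y₀ g w' y w'' y' h h') (by
    intro w' _ N' hN' y hy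
    rw [mem_filter] at hN'
    rw [hF] at hy
    dsimp only at hy
    rw [mem_filter] at hy
    obtain ⟨i, hi, y₀, hy₀, g, hg, h1, h2⟩ := hy.2.2.2 hN'.2
    exact ⟨i, hi, y₀, hy₀, g, hg, hZX N' hN'.1 y₀ hy₀, h1, h2⟩)
  have hlb : (𝒲.card : ℝ) * (low / 2) ≤
      ∑ w' ∈ 𝒲, ∑ N' ∈ (range (⌊(X : ℝ) / 2⌋₊ + 1)).filter (fun N' => Nm ≤ N'), ((F w' N').card : ℝ) := by
    rw [← nsmul_eq_mul]
    exact card_nsmul_le_sum _ _ _ hlarge
  have hlow0 : 0 ≤ low := by
    rw [hlowd]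
    positivity
  -- comparison
  have hI₀c : (I₀.card : ℝ) ≤ S.L * (z : ℝ) ^ k * r := by
    rw [hI₀, card_product, card_product, card_univ, card_univ, Fintype.card_fin, Fintype.card_fin]
    push_cast
    rw [mul_assoc]
    refine mul_le_mul_of_nonneg_left ?_ (Nat.cast_nonneg _)
    exact mul_le_mul_of_nonneg_right hEc2 (Nat.cast_nonneg _)
  have hGsc : (Gs.card : ℝ) ≤ ((2 * S.m + 2) * L) ^ S.m := by
    rw [hGs, Fintype.card_piFinset, prod_const, card_univ, Fintype.card_fin]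
    push_cast
    refine pow_le_pow_left₀ (Nat.cast_nonneg _) ?_ _
    have h1 := card_union_le Z (range (Y + 1))
    rw [card_range] at h1
    have h2 : ((Z ∪ range (Y + 1)).card : ℝ) ≤ Z.card + (Y + 1) := by exact_mod_cast h1
    linarith
  have hlog0 : 0 < Real.log (X : ℝ) ^ (k + 1) := by positivity
  obtain ⟨Q, hQ⟩ : ∃ Q : ℝ, Q = μ ^ (3 * w) * X / Real.log X ^ (k + 1) := ⟨_, rfl⟩
  have hQ0 : 0 < Q := by rw [hQ]; positivity
  have hBd : d * ν * X / Real.log X ^ (k + 1) ≤ d * Q := by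
    rw [hQ, mul_div_assoc', ← mul_assoc]
    refine div_le_div_of_nonneg_right ?_ hlog0.le
    exact mul_le_mul_of_nonneg_right (mul_le_mul_of_nonneg_left hνμ hd0.le) hX0.le
  have hlowQ : low = δ / (2 * T) * (Q * L ^ (k + 1)) := by
    have h1 : μ ^ (3 * w) = μ ^ (2 * w) * μ ^ w := by
      rw [← pow_add]
      congr 1
      ring
    rw [hlowd, hQ, hxd, h1, div_pow]
    field_simp
  have hYR : (Y : ℝ) ^ S.m = (L : ℝ) ^ S.m / (R : ℝ) ^ S.m := by
    rw [hLr, mul_pow]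
    field_simp
  have hfin : c₅ * ((L : ℝ) ^ S.m / (R : ℝ) ^ S.m) * (δ / (2 * T) * (Q * L ^ (k + 1)) / 2) ≤
      S.L * (z : ℝ) ^ k * r * (2 * S.m * L) * ((2 * S.m + 2) * L) ^ S.m * (d * Q) := by
    rw [← hYR, ← hlowQ]
    calc c₅ * (Y : ℝ) ^ S.m * (low / 2) ≤ 𝒲.card * (low / 2) := mul_le_mul_of_nonneg_right h𝒲c (by positivity)
      _ ≤ I₀.card * Z.card * Gs.card * (d * ν * X / Real.log X ^ (k + 1)) := hlb.trans hub
      _ ≤ S.L * (z : ℝ) ^ k * r * (2 * S.m * L) * ((2 * S.m + 2) * L) ^ S.m * (d * Q) := by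
          refine mul_le_mul ?_ hBd (by positivity) (by positivity)
          refine mul_le_mul ?_ hGsc (Nat.cast_nonneg _) (by positivity)
          exact mul_le_mul hI₀c hZc (Nat.cast_nonneg _) (by positivity)
  have hzk : (z : ℝ) ^ k ≤ (L : ℝ) ^ k := pow_le_pow_left₀ hz0.le hzL k
  obtain ⟨V, hV⟩ : ∃ V : ℝ, V = Q * (z : ℝ) ^ k * L * (L : ℝ) ^ S.m := ⟨_, rfl⟩
  have hV0 : 0 < V := by rw [hV]; positivity
  have hleft : c₅ * δ / (4 * T * (R : ℝ) ^ S.m) * V ≤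
      c₅ * ((L : ℝ) ^ S.m / (R : ℝ) ^ S.m) * (δ / (2 * T) * (Q * L ^ (k + 1)) / 2) := by
    have e1 : c₅ * ((L : ℝ) ^ S.m / (R : ℝ) ^ S.m) * (δ / (2 * T) * (Q * L ^ (k + 1)) / 2) =
        c₅ * δ / (4 * T * (R : ℝ) ^ S.m) * (Q * (L : ℝ) ^ k * L * (L : ℝ) ^ S.m) := by
      rw [pow_succ]
      field_simp
      ring
    rw [e1, hV]
    refine mul_le_mul_of_nonneg_left ?_ (by positivity)
    refine mul_le_mul_of_nonneg_right ?_ (by positivity)
    refine mul_le_mul_of_nonneg_right ?_ hL0.le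
    exact mul_le_mul_of_nonneg_left hzk hQ0.le
  have hright : S.L * (z : ℝ) ^ k * r * (2 * S.m * L) * ((2 * S.m + 2) * L) ^ S.m * (d * Q) = d * (G - 1) * V := by
    rw [hG, hV, mul_pow]
    ring
  have h8 := le_of_mul_le_mul_right (hleft.trans (hfin.trans (le_of_eq hright))) hV0
  have h9 : c₅ * δ / (4 * T * (R : ℝ) ^ S.m) = d * G := by
    rw [hd]
    field_simp
  rw [h9, mul_sub, mul_one] at h8
  linarith

end Pool.Agent.H34.EW
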