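import Pool.Agent.H34.EU.Cnf

/-!
# [H34 EW MOD] Many configurations which satisfy none of finitely many linear relations modulo primes

`coinM`: one relation modulo the prime `l` has density at most `1 / l + 1 / N`; `many_confM`: as `many_conf` of H34/EU/Cnf, outside
finitely many relations modulo large primes (the primes may depend on the set).
-/

set_option autoImplicit false

namespace Pool.Agent.H34.EW

open Finset Filter Pool.Agent.H34.RR Pool.Agent.H61.UN Pool.Agent.H48.EP Pool.Agent.H34.EU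

/-- one relation modulo a prime is rare -/
theorem coinM {P : Type} [Fintype P] [DecidableEq P] (N : ℕ) (hN0 : 0 < N) (l : ℕ) (hl : l.Prime) (C : P → ℤ)
    (hC : ∃ p, ¬ (l : ℤ) ∣ C p) (g : ℤ) :
    dn {u : P → Fin N | (l : ℤ) ∣ ∑ p, C p * ((u p : ℕ) : ℤ) - g} ≤ 1 / l + 1 / N := by
  classical
  have hNe : Nonempty (Fin N) := ⟨⟨0, hN0⟩⟩
  have hNr : (0 : ℝ) < N := by exact_mod_cast hN0
  have hlr : (0 : ℝ) < l := by exact_mod_cast hl.pos
  obtain ⟨p₀, hp₀⟩ := hC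
  have hinj : Function.Injective (fun _ : Unit => p₀) := fun _ _ _ => rfl
  unfold dn
  rw [Ex_extend (fun _ : Unit => p₀) hinj]
  refine Ex_le_const fun x => ?_
  obtain ⟨h₀, hh₀⟩ : ∃ h₀ : ℤ, h₀ = g - ∑ p ∈ univ.erase p₀, C p * ((x p : ℕ) : ℤ) := ⟨_, rfl⟩
  have hsum : ∀ t : Unit → Fin N, ∑ p, C p * (((Function.extend (fun _ : Unit => p₀) t x p : Fin N) : ℕ) : ℤ) - g =
      C p₀ * ((t () : ℕ) : ℤ) - h₀ := by
    intro t
    have e1 : Function.extend (fun _ : Unit => p₀) t x p₀ = t () := hinj.extend_apply t x ()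
    rw [← add_sum_erase _ _ (mem_univ p₀), e1, hh₀]
    have e2 : ∑ p ∈ univ.erase p₀, C p * (((Function.extend (fun _ : Unit => p₀) t x p : Fin N) : ℕ) : ℤ) =
        ∑ p ∈ univ.erase p₀, C p * ((x p : ℕ) : ℤ) := by
      refine sum_congr rfl fun p hp => ?_
      have e2 : Function.extend (fun _ : Unit => p₀) t x p = x p := by
        rw [Function.extend_apply']
        rintro ⟨_, h⟩
        exact (ne_of_mem_erase hp) h.symm
      rw [e2]
    rw [e2]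
    ring
  have h1 : Ex (fun t : Unit → Fin N => ({u : P → Fin N | (l : ℤ) ∣ ∑ p, C p * ((u p : ℕ) : ℤ) - g}).indicator (fun _ => (1 : ℝ))
      (Function.extend (fun _ : Unit => p₀) t x)) =
      dn {t : Unit → Fin N | (l : ℤ) ∣ C p₀ * ((t () : ℕ) : ℤ) - h₀} := by
    refine Ex_congr fun t => ?_
    by_cases h : (l : ℤ) ∣ C p₀ * ((t () : ℕ) : ℤ) - h₀
    · rw [Set.indicator_of_mem (show t ∈ {t : Unit → Fin N | (l : ℤ) ∣ C p₀ * ((t () : ℕ) : ℤ) - h₀} from h),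
        Set.indicator_of_mem]
      show (l : ℤ) ∣ _
      rw [hsum t]
      exact h
    · rw [Set.indicator_of_notMem (show t ∉ {t : Unit → Fin N | (l : ℤ) ∣ C p₀ * ((t () : ℕ) : ℤ) - h₀} from h),
        Set.indicator_of_notMem]
      intro h2
      apply h
      rw [← hsum t]
      exact h2
  rw [h1]
  have h2 := dn_mul_card {t : Unit → Fin N | (l : ℤ) ∣ C p₀ * ((t () : ℕ) : ℤ) - h₀}
  have h3 : {t : Unit → Fin N | (l : ℤ) ∣ C p₀ * ((t () : ℕ) : ℤ) - h₀}.ncard ≤ N / l + 1 := by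
    have h4 : Set.InjOn (fun t : Unit → Fin N => (t () : ℕ) / l) {t : Unit → Fin N | (l : ℤ) ∣ C p₀ * ((t () : ℕ) : ℤ) - h₀} := by
      intro t ht t' ht' htt
      have h5 : (l : ℤ) ∣ C p₀ * ((t () : ℕ) : ℤ) - h₀ := ht
      have h6 : (l : ℤ) ∣ C p₀ * ((t' () : ℕ) : ℤ) - h₀ := ht'
      have h7 := dvd_sub h5 h6
      have h8 : C p₀ * ((t () : ℕ) : ℤ) - h₀ - (C p₀ * ((t' () : ℕ) : ℤ) - h₀) = C p₀ * (((t () : ℕ) : ℤ) - ((t' () : ℕ) : ℤ)) := by
        ring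
      rw [h8] at h7
      have h9 := ((Nat.prime_iff_prime_int.1 hl).dvd_or_dvd h7).resolve_left hp₀
      have h10 : (t' () : ℕ) ≡ (t () : ℕ) [MOD l] := (Nat.modEq_iff_dvd).2 h9
      have h11 : (t () : ℕ) / l = (t' () : ℕ) / l := htt
      have h12 : (t' () : ℕ) % l = (t () : ℕ) % l := h10
      have h13 : (t () : ℕ) = (t' () : ℕ) := by
        rw [← Nat.div_add_mod (t () : ℕ) l, ← Nat.div_add_mod (t' () : ℕ) l, h11, h12]
      funext i
      exact Fin.ext h13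
    have h5 : (fun t : Unit → Fin N => (t () : ℕ) / l) '' {t : Unit → Fin N | (l : ℤ) ∣ C p₀ * ((t () : ℕ) : ℤ) - h₀} ⊆
        (range (N / l + 1) : Finset ℕ) := by
      rintro _ ⟨t, -, rfl⟩
      rw [mem_coe, mem_range, Nat.lt_succ_iff]
      exact Nat.div_le_div_right (t ()).2.le
    rw [← h4.ncard_image]
    refine (Set.ncard_le_ncard h5 (Finset.finite_toSet _)).trans (le_of_eq ?_)
    rw [Set.ncard_coe_finset, card_range]
  have h4 : (({t : Unit → Fin N | (l : ℤ) ∣ C p₀ * ((t () : ℕ) : ℤ) - h₀}.ncard : ℕ) : ℝ) ≤ (N : ℝ) / l + 1 := by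
    calc (({t : Unit → Fin N | (l : ℤ) ∣ C p₀ * ((t () : ℕ) : ℤ) - h₀}.ncard : ℕ) : ℝ) ≤ ((N / l + 1 : ℕ) : ℝ) := by exact_mod_cast h3
      _ ≤ (N : ℝ) / l + 1 := by
          push_cast
          linarith [@Nat.cast_div_le ℝ _ _ _ N l]
  rw [← h2, Fintype.card_fun, Fintype.card_unit, pow_one, Fintype.card_fin] at h4
  have h5 : dn {t : Unit → Fin N | (l : ℤ) ∣ C p₀ * ((t () : ℕ) : ℤ) - h₀} ≤ ((N : ℝ) / l + 1) / N := by
    rw [le_div_iff₀ hNr]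
    exact h4
  refine h5.trans (le_of_eq ?_)
  field_simp

/-- a dense family contains many maps without coincidences and without the relations modulo the primes -/
theorem avoid_denseM {P Λ : Type} [Fintype P] [DecidableEq P] [Fintype Λ] (N : ℕ) (hN0 : 0 < N) (c : ℝ) (l₀ : ℕ) (hl₀ : 0 < l₀)
    (hc : 4 * ((Fintype.card P : ℝ) ^ 2 + Fintype.card Λ) ≤ c * N) (hc2 : 4 * (Fintype.card Λ : ℝ) ≤ c * l₀)
    (U : Set (P → Fin N)) (hU : c ≤ dn U) (τ : P → ℤ) (C : Λ → P → ℤ) (g : Λ → ℤ) (l : Λ → ℕ) (hl : ∀ i, (l i).Prime)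
    (hll : ∀ i, l₀ ≤ l i) (hC : ∀ i, ∃ p, ¬ (l i : ℤ) ∣ C i p) :
    c / 2 * (N : ℝ) ^ Fintype.card P ≤
      ((U ∩ {u : P → Fin N | Function.Injective (fun p => ((u p : ℕ) : ℤ) + τ p) ∧
        ∀ i, ¬ (l i : ℤ) ∣ ∑ p, C i p * ((u p : ℕ) : ℤ) - g i}).ncard : ℝ) := by
  classical
  have hNr : (0 : ℝ) < N := by exact_mod_cast hN0
  have hl₀r : (0 : ℝ) < l₀ := by exact_mod_cast hl₀
  obtain ⟨J, hJ⟩ : ∃ J : Set (P → Fin N), J = {u : P → Fin N | Function.Injective (fun p => ((u p : ℕ) : ℤ) + τ p) ∧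
        ∀ i, ¬ (l i : ℤ) ∣ ∑ p, C i p * ((u p : ℕ) : ℤ) - g i} := ⟨_, rfl⟩
  rw [← hJ]
  have h1 : dn U ≤ dn (U ∩ J) + (∑ pq ∈ (univ : Finset (P × P)).filter (fun pq => pq.1 ≠ pq.2),
      dn {u : P → Fin N | ((u pq.1 : ℕ) : ℤ) + τ pq.1 = ((u pq.2 : ℕ) : ℤ) + τ pq.2} +
      ∑ i : Λ, dn {u : P → Fin N | (l i : ℤ) ∣ ∑ p, C i p * ((u p : ℕ) : ℤ) - g i}) := by
    unfold dn
    rw [← Ex_sum, ← Ex_sum, ← Ex_add, ← Ex_add]
    refine Ex_mono fun u => ?_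
    have h0 : ∀ pq ∈ (univ : Finset (P × P)).filter (fun pq => pq.1 ≠ pq.2), (0 : ℝ) ≤
        ({u : P → Fin N | ((u pq.1 : ℕ) : ℤ) + τ pq.1 = ((u pq.2 : ℕ) : ℤ) + τ pq.2}).indicator (fun _ => (1 : ℝ)) u :=
      fun pq _ => Set.indicator_nonneg (fun _ _ => zero_le_one) u
    have h0' : ∀ i ∈ (univ : Finset Λ), (0 : ℝ) ≤
        ({u : P → Fin N | (l i : ℤ) ∣ ∑ p, C i p * ((u p : ℕ) : ℤ) - g i}).indicator (fun _ => (1 : ℝ)) u :=
      fun i _ => Set.indicator_nonneg (fun _ _ => zero_le_one) u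
    have h00 : (0 : ℝ) ≤ (U ∩ J).indicator (fun _ => (1 : ℝ)) u := Set.indicator_nonneg (fun _ _ => zero_le_one) u
    have hs := sum_nonneg h0
    have hs' := sum_nonneg h0'
    by_cases hu : u ∈ U
    · rw [Set.indicator_of_mem hu]
      by_cases hi : u ∈ J
      · rw [Set.indicator_of_mem (show u ∈ U ∩ J from ⟨hu, hi⟩)]
        linarith
      · rw [hJ] at hi
        by_cases hinj : Function.Injective (fun p => ((u p : ℕ) : ℤ) + τ p)
        · have h2 : ∃ i, (l i : ℤ) ∣ ∑ p, C i p * ((u p : ℕ) : ℤ) - g i := by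
            by_contra hcon
            push Not at hcon
            exact hi ⟨hinj, hcon⟩
          obtain ⟨i, hi2⟩ := h2
          have h3 := single_le_sum h0' (mem_univ i)
          rw [Set.indicator_of_mem (show u ∈ {u : P → Fin N | (l i : ℤ) ∣ ∑ p, C i p * ((u p : ℕ) : ℤ) - g i} from hi2)] at h3
          linarith
        · rw [Function.Injective] at hinj
          push Not at hinj
          obtain ⟨p, q, hpq, hne⟩ := hinj
          have h3 := single_le_sum h0 (mem_filter.2 ⟨mem_univ (p, q), hne⟩)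
          rw [Set.indicator_of_mem (show u ∈ {u : P → Fin N | ((u p : ℕ) : ℤ) + τ p = ((u q : ℕ) : ℤ) + τ q} from hpq)] at h3
          linarith
    · rw [Set.indicator_of_notMem hu]
      linarith
  have h2 : ∑ pq ∈ (univ : Finset (P × P)).filter (fun pq => pq.1 ≠ pq.2),
      dn {u : P → Fin N | ((u pq.1 : ℕ) : ℤ) + τ pq.1 = ((u pq.2 : ℕ) : ℤ) + τ pq.2} ≤
      ((univ : Finset (P × P)).filter (fun pq => pq.1 ≠ pq.2)).card • (1 / (N : ℝ)) :=
    sum_le_card_nsmul _ _ _ fun pq hpq => coin N hN0 pq.1 pq.2 (mem_filter.1 hpq).2 _ _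
  have h3 : (((univ : Finset (P × P)).filter (fun pq => pq.1 ≠ pq.2)).card : ℝ) ≤ (Fintype.card P : ℝ) ^ 2 := by
    have h4 : ((univ : Finset (P × P)).filter (fun pq => pq.1 ≠ pq.2)).card ≤ Fintype.card P * Fintype.card P := by
      refine (card_filter_le _ _).trans (le_of_eq ?_)
      rw [card_univ, Fintype.card_prod]
    have h5 : (((univ : Finset (P × P)).filter (fun pq => pq.1 ≠ pq.2)).card : ℝ) ≤ ((Fintype.card P * Fintype.card P : ℕ) : ℝ) := by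
      exact_mod_cast h4
    refine h5.trans (le_of_eq ?_)
    push_cast
    ring
  have h2' : ∑ i : Λ, dn {u : P → Fin N | (l i : ℤ) ∣ ∑ p, C i p * ((u p : ℕ) : ℤ) - g i} ≤
      (univ : Finset Λ).card • (1 / (l₀ : ℝ) + 1 / (N : ℝ)) := by
    refine sum_le_card_nsmul _ _ _ fun i _ => (coinM N hN0 (l i) (hl i) (C i) (hC i) (g i)).trans ?_
    have h4 : (l₀ : ℝ) ≤ l i := by exact_mod_cast hll i
    have h5 : 1 / (l i : ℝ) ≤ 1 / l₀ := one_div_le_one_div_of_le hl₀r h4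
    linarith
  rw [nsmul_eq_mul] at h2 h2'
  rw [card_univ] at h2'
  have h4 : (((univ : Finset (P × P)).filter (fun pq => pq.1 ≠ pq.2)).card : ℝ) * (1 / (N : ℝ)) ≤
      (Fintype.card P : ℝ) ^ 2 * (1 / (N : ℝ)) := mul_le_mul_of_nonneg_right h3 (by positivity)
  have h5 : ((Fintype.card P : ℝ) ^ 2 + Fintype.card Λ) * (1 / (N : ℝ)) ≤ c / 4 := by
    rw [mul_one_div, div_le_iff₀ hNr]
    linarith
  have h5' : (Fintype.card Λ : ℝ) * (1 / (l₀ : ℝ)) ≤ c / 4 := by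
    rw [mul_one_div, div_le_iff₀ hl₀r]
    linarith
  have h6 : c / 2 ≤ dn (U ∩ J) := by
    rw [add_mul] at h5
    rw [mul_add] at h2'
    linarith
  have hcardX : (Fintype.card (P → Fin N) : ℝ) = (N : ℝ) ^ Fintype.card P := by
    rw [Fintype.card_fun, Fintype.card_fin]
    push_cast
    rfl
  rw [← dn_mul_card, hcardX]
  exact mul_le_mul_of_nonneg_right h6 (by positivity)

/-- many configurations of clusters, with arbitrary shifts of the clusters, outside finitely many relations modulo primes -/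
theorem many_confM {k : ℕ} {δ : ℝ} (S : Sys k δ) (s : ℕ) (hs : 1 ≤ s) (Λ : Type) [Fintype Λ] (ε : ℝ) (hε : 0 < ε) :
    ∃ (c : ℝ) (z₀ l₀ : ℕ), 0 < c ∧ ∀ z : ℕ, z₀ ≤ z → ∀ E : Finset (Fin k → ℤ), (∀ b ∈ E, ∀ i, |b i| ≤ z) →
      ε * (z : ℝ) ^ k ≤ E.card → ∀ (τ : Fin S.m → ℤ) (C : Λ → Fin S.m × Fin s → ℤ) (g : Λ → ℤ) (l : Λ → ℕ),
      (∀ i, (l i).Prime) → (∀ i, l₀ ≤ l i) → (∀ i, ∃ p, ¬ (l i : ℤ) ∣ C i p) → ∃ 𝒰 : Finset (Fin S.m × Fin s → ℕ),
        (∀ u ∈ 𝒰, (∀ p, u p ≤ (2 * k * S.n + 1) * z) ∧ Function.Injective (fun p => (u p : ℤ) + τ p.1) ∧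
          (∀ i, ¬ (l i : ℤ) ∣ ∑ p, C i p * (u p : ℤ) - g i) ∧
          ∀ (a : Fin S.L) (t : Fin (k + 1) → Fin s), ∃ b ∈ E, ∀ i : Fin k,
            (u (S.e a i.succ, t i.succ) : ℤ) - (u (S.e a 0, t 0) : ℤ) = S.μ a * b i) ∧
        c * (((2 * k * S.n + 1) * z : ℕ) : ℝ) ^ (S.m * s) ≤ 𝒰.card := by
  classical
  obtain ⟨K, hK⟩ : ∃ K, K = 2 * k * S.n + 1 := ⟨_, rfl⟩
  have hK0 : 0 < K := by omega
  have hKr : (0 : ℝ) < K := by exact_mod_cast hK0
  obtain ⟨c₁, hc₁, hrem⟩ := removal S.e S.inj S.lin S.cov (ε / (K : ℝ) ^ (k + 1)) (by positivity)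
  obtain ⟨c₂, hc₂⟩ : ∃ c₂, c₂ = c₁ ^ (s ^ S.m) := ⟨_, rfl⟩
  have hc₂0 : 0 < c₂ := by
    rw [hc₂]
    positivity
  obtain ⟨w, hw⟩ : ∃ w, w = S.m * s := ⟨_, rfl⟩
  obtain ⟨Q, hQ⟩ : ∃ Q : ℝ, Q = (w : ℝ) ^ 2 + Fintype.card Λ := ⟨_, rfl⟩
  have hQΛ : (Fintype.card Λ : ℝ) ≤ Q := by
    rw [hQ]
    have : (0 : ℝ) ≤ (w : ℝ) ^ 2 := by positivity
    linarith
  refine ⟨c₂ / 2, ⌈4 * Q / c₂⌉₊ + 1, ⌈4 * Q / c₂⌉₊ + 1, by positivity, ?_⟩
  intro z hz E hE hEc τ C g l hl hll hC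
  have hz1 : 1 ≤ z := by omega
  have hzr : (0 : ℝ) < z := by exact_mod_cast hz1
  obtain ⟨N, hN⟩ : ∃ N, N = K * z := ⟨_, rfl⟩
  have hzN : z ≤ N := by
    rw [hN]
    exact Nat.le_mul_of_pos_left z hK0
  have hN0 : 0 < N := by omega
  have hNe : Nonempty (Fin N) := ⟨⟨0, hN0⟩⟩
  have hTr := trivial_copies S z hz1 E hE
  rw [← hK, ← hN] at hTr
  obtain ⟨T, hT1, hT2, hT3⟩ := hTr
  have h1 := hrem (Fin N) (fun a => FE (S.μ a) E) T hT1 hT2 (by
    rw [Fintype.card_fin, Fintype.card_fin, hT3, hN]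
    push_cast
    rw [mul_pow, ← mul_assoc, div_mul_cancel₀ _ (by positivity), pow_succ]
    calc ε * ((z : ℝ) ^ k * z) = z * (ε * (z : ℝ) ^ k) := by ring
      _ ≤ z * E.card := mul_le_mul_of_nonneg_left hEc hzr.le)
  have h2 := blowup (V := Fin S.m) (X := Fin N) s hs {x | ∀ a, x ∘ S.e a ∈ FE (S.μ a) E}
  rw [Fintype.card_fin] at h2
  obtain ⟨U, hU⟩ : ∃ U : Set (Fin S.m × Fin s → Fin N), U = {u : Fin S.m × Fin s → Fin N |
      ∀ t : Fin S.m → Fin s,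
      (fun v => u (v, t v)) ∈ {x : Fin S.m → Fin N | ∀ a, x ∘ S.e a ∈ FE (S.μ a) E}} := ⟨_, rfl⟩
  have h3 : c₂ ≤ dn U := by
    rw [hc₂, hU]
    exact (pow_le_pow_left₀ hc₁.le h1 _).trans h2
  have hcardP : Fintype.card (Fin S.m × Fin s) = w := by
    rw [Fintype.card_prod, Fintype.card_fin, Fintype.card_fin, hw]
  have hbig : ∀ y : ℕ, ⌈4 * Q / c₂⌉₊ ≤ y → 4 * Q ≤ c₂ * y := by
    intro y hy
    have h5 : 4 * Q / c₂ ≤ y := (Nat.le_ceil _).trans (by exact_mod_cast hy)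
    rw [div_le_iff₀ hc₂0] at h5
    linarith
  have h4 := avoid_denseM (P := Fin S.m × Fin s) (Λ := Λ) N hN0 c₂ (⌈4 * Q / c₂⌉₊ + 1) (by omega) (by
    rw [hcardP, ← hQ]
    exact hbig N (by omega)) (by
    have h5 := hbig (⌈4 * Q / c₂⌉₊ + 1) (by omega)
    linarith) U h3 (fun p => τ p.1) C g l hl hll hC
  rw [hcardP] at h4
  have hfin : (U ∩ {u : Fin S.m × Fin s → Fin N | Function.Injective (fun p => ((u p : ℕ) : ℤ) + τ p.1) ∧
      ∀ i, ¬ (l i : ℤ) ∣ ∑ p, C i p * ((u p : ℕ) : ℤ) - g i}).Finite := Set.toFinite _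
  have hφ : Function.Injective (fun (u : Fin S.m × Fin s → Fin N) (p : Fin S.m × Fin s) => (u p : ℕ)) := by
    intro u u' h
    funext p
    exact Fin.ext (congrFun h p)
  refine ⟨hfin.toFinset.image (fun (u : Fin S.m × Fin s → Fin N) (p : Fin S.m × Fin s) => (u p : ℕ)), ?_, ?_⟩
  · intro v hv
    obtain ⟨u, hu, rfl⟩ := mem_image.1 hv
    rw [Set.Finite.mem_toFinset] at hu
    obtain ⟨huU, huI, huM⟩ := hu
    rw [hU] at huU
    refine ⟨fun p => ?_, huI, huM, fun a t => ?_⟩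
    · rw [← hK, ← hN]
      exact (u p).2.le
    · have h5 := huU (Function.extend (S.e a) t (fun _ => ⟨0, hs⟩)) a
      obtain ⟨b, hb, hb'⟩ := h5
      refine ⟨b, hb, fun i => ?_⟩
      have h6 := hb' i
      simp only [Function.comp_apply, (S.inj a).extend_apply] at h6
      exact h6
  · rw [card_image_of_injective _ hφ, ← Set.ncard_eq_toFinset_card _ hfin, ← hK, ← hN, ← hw]
    exact h4

end Pool.Agent.H34.EW
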